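import Pool.Agent.T6.H46.RR.Main

/-!
# Actions on trees without fixed points have hyperbolic elements
-/

set_option autoImplicit false

open Metric Set Filter Topology
open Pool.Agent.TH60.FP Pool.Agent.Y34.HB Pool.Agent.Y34.EL
open Pool.Agent.T6.H67.TA

namespace Pool.Agent.T6.H46.RR

variable {X : Type} [MetricSpace X] {G : Type} [Group G] [MulAction G X]

/-- a group which acts geometrically is finitely generated -/
lemma fg_of_geo (hG : Geo X G) (o : X) : Group.FG G := by
  have := hG.proper
  have := hG.isom
  obtain ⟨D1, hD1, hlift⟩ := lift hG o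
  have hfin := finite_short hG o (2 * D1 + 1)
  rw [Group.fg_iff]
  refine ⟨_, ?_, hfin⟩
  rw [eq_top_iff]
  intro g _
  obtain ⟨N, y, hN0, hN, hy0, hyN, hst⟩ := seg_chain hG.cn o (g • o)
  obtain ⟨x, hx0, hxN, -, hxs⟩ := hlift N y 1 g hN0 (by rw [hy0, one_smul]) hyN hst
  have h1 : ∀ i, i ≤ N → x i ∈ Subgroup.closure {s : G | dist o (s • o) ≤ 2 * D1 + 1} := by
    intro i
    induction i with
    | zero => intro _; rw [hx0]; exact Subgroup.one_mem _
    | succ i ih =>
      intro hi
      have h2 := Subgroup.mul_mem _ (ih (by omega)) (Subgroup.subset_closure (hxs i (by omega)))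
      rwa [mul_inv_cancel_left] at h2
  rw [← hxN]
  exact h1 N le_rfl

variable {V : Type} {T : SimpleGraph V} (hT : T.IsTree) [MulAction G V]
  (hact : ∀ (g : G) (u v : V), T.Adj u v → T.Adj (g • u) (g • v))

include hT hact in
lemma even_disp (g : G) (p q : V) : Even (D T p (g • p)) ↔ Even (D T q (g • q)) := by
  have h1 := D_parity hT p q (g • p)
  have h2 := D_parity hT (g • q) q (g • p)
  rw [D_smul hT hact, D_comm (g • q) q, D_comm q p] at h2
  rw [Int.even_sub, Int.even_add] at h1 h2
  tauto

include hT hact in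
/-- the elements of even displacement -/
lemma exists_even (p : V) : ∃ G₀ : Subgroup G, G₀.index ≠ 0 ∧
    (∀ g ∈ G₀, ∀ q : V, Even (D T q (g • q))) ∧ (∀ g h : G, g ∉ G₀ → h ∉ G₀ → g * h ∈ G₀) ∧
    ∀ g ∉ G₀, ¬ Even (D T p (g • p)) := by
  have hadd : ∀ g h : G, Even (D T p ((g * h) • p)) ↔
      (Even (D T p (g • p)) ↔ Even (D T p (h • p))) := by
    intro g h
    have h1 := D_parity hT (g • p) p ((g * h) • p)
    rw [mul_smul, D_smul hT hact, D_comm (g • p) p, Int.even_sub, Int.even_add] at h1
    rw [mul_smul]
    tauto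
  let G₀ : Subgroup G :=
    { carrier := {g | Even (D T p (g • p))}
      one_mem' := by simp [D_self]
      mul_mem' := by
        intro a b ha hb
        exact (hadd a b).2 ⟨fun _ => hb, fun _ => ha⟩
      inv_mem' := by
        intro a ha
        show Even (D T p (a⁻¹ • p))
        rw [D_inv hT hact]; exact ha }
  have hmem : ∀ g, g ∈ G₀ ↔ Even (D T p (g • p)) := fun g => Iff.rfl
  refine ⟨G₀, ?_, ?_, ?_, fun g hg => hg⟩
  · by_cases h : ∃ t, t ∉ G₀
    · obtain ⟨t, ht⟩ := h
      have : Finite (G ⧸ G₀) := by
        refine Set.finite_univ_iff.1 ((Set.toFinite {((1 : G) : G ⧸ G₀), ((t⁻¹ : G) : G ⧸ G₀)}).subset ?_)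
        intro q _
        induction q using QuotientGroup.induction_on with
        | H g =>
          by_cases hg : g ∈ G₀
          · left
            rw [QuotientGroup.eq]
            simpa using hg
          · right
            show ((g : G) : G ⧸ G₀) = ((t⁻¹ : G) : G ⧸ G₀)
            rw [QuotientGroup.eq, hmem, hadd]
            have h1 : ¬ Even (D T p (g⁻¹ • p)) := by rw [D_inv hT hact]; exact hg
            have h2 : ¬ Even (D T p (t⁻¹ • p)) := by rw [D_inv hT hact]; exact ht
            tauto
      exact Subgroup.index_ne_zero_of_finite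
    · push Not at h
      have : G₀ = ⊤ := eq_top_iff.2 fun g _ => h g
      rw [this, Subgroup.index_top]
      exact one_ne_zero
  · intro g hg q
    exact (even_disp hT hact g p q).1 hg
  · intro g h hg hh
    rw [hmem, hadd]
    rw [hmem] at hg hh
    tauto

include hT hact in
/-- a finitely generated group which acts on a tree without fixed vertex and without invariant
edge contains a hyperbolic element -/
theorem exists_hyperbolic (hfg : Group.FG G) (hv : ∀ v : V, ∃ g : G, g • v ≠ v)
    (he : ∀ u v : V, T.Adj u v → ∃ g : G, g • u ≠ u ∧ g • u ≠ v ∨ g • v ≠ u ∧ g • v ≠ v) :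
    ∃ (f : G) (w : V), OnAxis T f w := by
  classical
  obtain ⟨p⟩ : Nonempty V := hT.connected.nonempty
  obtain ⟨G₀, hidx, heven, hodd, hp⟩ := exists_even hT hact p
  have : G₀.FiniteIndex := ⟨hidx⟩
  have hfg₀ : Group.FG G₀ := Subgroup.fg_of_index_ne_zero G₀
  obtain ⟨S, hS⟩ := hfg₀
  -- no global fixed vertex of `G₀`
  have hfix : ∀ q : V, ∃ y ∈ S, y • q ≠ q := by
    intro q
    by_contra hcon
    push Not at hcon
    have hall : ∀ g ∈ G₀, g • q = q := by
      intro g hg
      have h1 : (⟨g, hg⟩ : G₀) ∈ Subgroup.closure (S : Set G₀) := by rw [hS]; trivial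
      have h2 : (⟨g, hg⟩ : G₀) ∈ MulAction.stabilizer G₀ q := by
        refine (Subgroup.closure_le _).2 ?_ h1
        intro y hy
        exact hcon y hy
      exact h2
    obtain ⟨t, ht⟩ := hv q
    have ht0 : t ∉ G₀ := fun h => ht (hall t h)
    -- `t` exchanges `q` and `t q`
    have htt : t • t • q = q := by
      rw [smul_smul]; exact hall _ (hodd t t ht0 ht0)
    have hoddq : ¬ Even (D T q (t • q)) := by
      rw [← even_disp hT hact t p q]; exact hp t ht0
    obtain ⟨k, hk⟩ := Int.not_even_iff_odd.1 hoddq
    have hk0 : 0 ≤ k := by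
      have := D_nonneg (T := T) q (t • q)
      omega
    obtain ⟨u, hu1, hu2⟩ := exists_between hT q (t • q) k.toNat (by
      rw [Int.toNat_of_nonneg hk0, hk]; omega)
    rw [Int.toNat_of_nonneg hk0] at hu1 hu2
    obtain ⟨v, hv1, hv2⟩ := exists_between hT q (t • q) (k + 1).toNat (by
      rw [Int.toNat_of_nonneg (by omega), hk]; omega)
    rw [Int.toNat_of_nonneg (by omega)] at hv1 hv2
    have huv : D T u v = 1 := by
      have h1 := D_on_geod hT (u := q) (v := t • q) (p := u) (q := v) (by omega) (by omega)
        (by omega)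
      omega
    have hadj : T.Adj u v := by
      unfold D at huv
      exact SimpleGraph.dist_eq_one_iff_adj.1 (by exact_mod_cast huv)
    -- fixed by `G₀`, exchanged by the others
    have hfixb : ∀ g ∈ G₀, ∀ z : V, D T q z + D T z (t • q) = D T q (t • q) → g • z = z := by
      intro g hg z hz
      refine fix_between hT hact (a := q) (b := t • q) ?_ (hall g hg) ?_
      · unfold P; rw [D_comm z q]; omega
      · have h1 : t⁻¹ * g * t ∈ G₀ := by
          by_cases h : t⁻¹ * g * t ∈ G₀
          · exact h
          · exfalso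
            have h2 : t⁻¹ ∉ G₀ := fun h => ht0 (G₀.inv_mem_iff.1 h)
            have h3 : g * t ∈ G₀ := by
              by_contra h4
              exact h (by rw [mul_assoc]; exact hodd _ _ h2 h4)
            exact ht0 ((G₀.mul_mem_cancel_left hg).1 h3)
        have h2 := hall _ h1
        rw [mul_smul, mul_smul, inv_smul_eq_iff] at h2
        exact h2
    have hswap : t • u = v := by
      have e1 : D T q (t • u) = D T v q := by
        have := D_smul hT hact t (t • q) u
        rw [htt] at this
        rw [this, D_comm (t • q) u, D_comm v q]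
        omega
      have e2 : D T (t • u) (t • q) = D T u q := D_smul hT hact t u q
      have h1 := D_on_geod hT (u := q) (v := t • q) (p := v) (q := t • u) (by omega)
        (by rw [e1, e2, D_comm v q, D_comm u q]; omega) (by rw [e1, D_comm v q])
      rw [e1, D_comm v q, sub_self] at h1
      exact (D_eq_zero hT h1).symm
    have hswap' : t • v = u := by
      have e1 : D T q (t • v) = D T u q := by
        have := D_smul hT hact t (t • q) v
        rw [htt] at this
        rw [this, D_comm (t • q) v, D_comm u q]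
        omega
      have e2 : D T (t • v) (t • q) = D T v q := D_smul hT hact t v q
      have h1 := D_on_geod hT (u := q) (v := t • q) (p := u) (q := t • v) (by omega)
        (by rw [e1, e2, D_comm v q, D_comm u q]; omega) (by rw [e1, D_comm u q])
      rw [e1, D_comm u q, sub_self] at h1
      exact (D_eq_zero hT h1).symm
    have hfu : ∀ g ∈ G₀, g • u = u := fun g hg => hfixb g hg u (by omega)
    have hfv : ∀ g ∈ G₀, g • v = v := fun g hg => hfixb g hg v (by omega)
    have hrest : ∀ g ∉ G₀, g • u = v ∧ g • v = u := by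
      intro g hg
      have h2 : t⁻¹ ∉ G₀ := fun h => ht0 (G₀.inv_mem_iff.1 h)
      have h1 : t⁻¹ * g ∈ G₀ := hodd _ _ h2 hg
      have h3 := hfu _ h1
      have h4 := hfv _ h1
      rw [mul_smul, inv_smul_eq_iff] at h3 h4
      exact ⟨h3.trans hswap, h4.trans hswap'⟩
    obtain ⟨g, hg⟩ := he u v hadj
    by_cases h : g ∈ G₀
    · rcases hg with hg | hg
      · exact hg.1 (hfu g h)
      · exact hg.2 (hfv g h)
    · rcases hg with hg | hg
      · exact hg.2 (hrest g h).1
      · exact hg.1 (hrest g h).2
  have hact₀ : ∀ (g : G₀) (u v : V), T.Adj u v → T.Adj (g • u) (g • v) :=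
    fun g u v h => hact g u v h
  have hev₀ : ∀ (g : G₀) (p : V), Even (D T p (g • p)) := fun g q => heven g g.2 q
  obtain ⟨g, -, q, hq⟩ := serre hT hact₀ hev₀ S hfix
  obtain ⟨o, ho1, ho2⟩ := exists_axis hT hact₀ hev₀ g q hq
  exact ⟨g, o, ho1, ho2⟩

end Pool.Agent.T6.H46.RR
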