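import Pool.Agent.Y34.EL.All
import Pool.Agent.Y219.EL.Axis
import Pool.Agent.R632.CZ.Axes
import Pool.Agent.T6.H46.RR.Tree

/-!
# Elements with an axis in a tree along which some segment has a finite stabiliser are rank one
-/

set_option autoImplicit false

open Metric Set Filter Topology
open Pool.Agent.TH60.FP Pool.Agent.Y34.HB Pool.Agent.Y34.EL Pool.Agent.Y219.EL
open Pool.Agent.Y155.HB Pool.Agent.T6.H67.TA

namespace Pool.Agent.T6.H46.RR

variable {X : Type} [MetricSpace X] {G : Type} [Group G] [MulAction G X]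

lemma finite_short (hG : Geo X G) (o : X) (R : ℝ) : {s : G | dist o (s • o) ≤ R}.Finite := by
  have := hG.proper
  have := hG.disc
  have h1 := finite_disjoint_inter_image (Γ := G) (isCompact_singleton (x := o))
    (isCompact_closedBall o R)
  refine h1.subset ?_
  intro s hs
  rw [Set.mem_ofPred_eq] at hs ⊢
  refine ⟨s • o, ⟨o, rfl, rfl⟩, ?_⟩
  rw [mem_closedBall, dist_comm]
  exact hs

lemma lift (hG : Geo X G) (o : X) : ∃ D : ℝ, 0 ≤ D ∧ ∀ (N : ℕ) (y : ℕ → X) (g h : G), 0 < N →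
    y 0 = g • o → y N = h • o → (∀ i, i < N → dist (y i) (y (i + 1)) ≤ 1) →
    ∃ x : ℕ → G, x 0 = g ∧ x N = h ∧ (∀ i, i ≤ N → dist (x i • o) (y i) ≤ D) ∧
      ∀ i, i < N → dist o (((x i)⁻¹ * x (i + 1)) • o) ≤ 2 * D + 1 := by
  classical
  have := hG.isom
  obtain ⟨K, hK, hcov⟩ := hG.cc
  obtain ⟨D0, hD0⟩ := hK.isBounded.subset_closedBall o
  have hs : ∀ z : X, ∃ s : G, dist (s • o) z ≤ max D0 0 := by
    intro z
    obtain ⟨g, hg⟩ := hcov z
    refine ⟨g⁻¹, ?_⟩
    have h1 := mem_closedBall.1 (hD0 hg)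
    rw [← dist_smul g, smul_inv_smul, dist_comm]
    exact h1.trans (le_max_left _ _)
  choose s hs using hs
  refine ⟨max D0 0, le_max_right _ _, fun N y g h hN h0 hN' hst => ?_⟩
  set x : ℕ → G := fun i => if i = 0 then g else if i = N then h else s (y i) with hx
  have hx1 : ∀ i, dist (x i • o) (y i) ≤ max D0 0 := by
    intro i
    simp only [hx]
    split_ifs with h1 h2
    · rw [h1, h0, dist_self]; exact le_max_right _ _
    · rw [h2, hN', dist_self]; exact le_max_right _ _
    · exact hs _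
  refine ⟨x, by simp [hx], ?_, fun i _ => hx1 i, fun i hi => ?_⟩
  · simp only [hx]
    rw [if_neg (by omega)]; simp
  · have h1 := dist_triangle4 (x i • o) (y i) (y (i + 1)) (x (i + 1) • o)
    have h2 := hx1 i
    have h3 := hx1 (i + 1)
    have h4 := hst i hi
    rw [dist_comm (y (i + 1))] at h1
    rw [mul_smul, ← dist_smul (x i), smul_inv_smul]
    linarith

section tree

variable {V : Type} {T : SimpleGraph V} [MulAction G V]

lemma lip (hG : Geo X G) (o : X) (w : V) (R : ℝ) : ∃ C : ℕ, ∀ s : G, dist o (s • o) ≤ R →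
    D T w (s • w) ≤ C := by
  obtain ⟨C, hC⟩ := ((finite_short hG o R).image (fun s => T.dist w (s • w))).bddAbove
  refine ⟨C, fun s hs => ?_⟩
  have : T.dist w (s • w) ≤ C := hC ⟨s, hs, rfl⟩
  unfold D
  exact_mod_cast this

lemma walk_tree (hT : T.IsTree) (hact : ∀ (g : G) (u v : V), T.Adj u v → T.Adj (g • u) (g • v))
    (w : V) (C : ℕ) (x : ℕ → G) (i : ℕ) : ∀ k : ℕ,
    (∀ j, i ≤ j → j < i + k → D T w (((x j)⁻¹ * x (j + 1)) • w) ≤ C) →
    D T (x i • w) (x (i + k) • w) ≤ k * C := by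
  intro k
  induction k with
  | zero => intro _; simp [D_self]
  | succ k ih =>
    intro h
    have h1 := ih fun j h1 h2 => h j h1 (by omega)
    have h2 := h (i + k) (by omega) (by omega)
    rw [mul_smul, ← D_smul hT hact (x (i + k)), smul_inv_smul] at h2
    have h3 := D_tri hT (x i • w) (x (i + k) • w) (x (i + k + 1) • w)
    rw [show i + (k + 1) = i + k + 1 by ring]
    push_cast
    linarith

lemma walk_space [IsIsometricSMul G X] (o : X) (C : ℝ) (x : ℕ → G) (i : ℕ) : ∀ k : ℕ,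
    (∀ j, i ≤ j → j < i + k → dist o (((x j)⁻¹ * x (j + 1)) • o) ≤ C) →
    dist (x i • o) (x (i + k) • o) ≤ k * C := by
  intro k
  induction k with
  | zero => intro _; simp
  | succ k ih =>
    intro h
    have h1 := ih fun j h1 h2 => h j h1 (by omega)
    have h2 := h (i + k) (by omega) (by omega)
    rw [mul_smul, ← dist_smul (x (i + k)), smul_inv_smul] at h2
    have h3 := dist_triangle (x i • o) (x (i + k) • o) (x (i + k + 1) • o)
    rw [show i + (k + 1) = i + k + 1 by ring]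
    push_cast
    linarith

lemma seg_chain (hX : CN X) [ProperSpace X] (p q : X) : ∃ (N : ℕ) (y : ℕ → X), 0 < N ∧
    (N : ℝ) ≤ dist p q + 2 ∧ y 0 = p ∧ y N = q ∧ ∀ i, i < N → dist (y i) (y (i + 1)) ≤ 1 := by
  set d := dist p q with hd
  have hd0 : 0 ≤ d := dist_nonneg
  set N := ⌈d⌉₊ + 1 with hN
  have hN0 : 0 < N := by omega
  have hNr : (0 : ℝ) < N := by exact_mod_cast hN0
  have hNd : d ≤ N := by
    rw [hN]; push_cast
    have := Nat.le_ceil d
    linarith
  have hex : ∀ i : ℕ, ∃ m : X, i ≤ N → Dv p q ((i : ℝ) / N) m := by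
    intro i
    by_cases h : i ≤ N
    · obtain ⟨m, hm⟩ := dv_exists hX p q ((i : ℝ) / N) (by positivity)
        ((div_le_one hNr).2 (by exact_mod_cast h))
      exact ⟨m, fun _ => hm⟩
    · exact ⟨p, fun h' => absurd h' h⟩
  choose y hy using hex
  refine ⟨N, y, hN0, ?_, ?_, ?_, ?_⟩
  · rw [hN]; push_cast
    have := (Nat.ceil_lt_add_one hd0).le
    linarith
  · have h1 := (hy 0 (Nat.zero_le _)).left (by simp)
    simp only [Nat.cast_zero, zero_div, zero_mul] at h1
    exact (dist_eq_zero.1 (le_antisymm h1 dist_nonneg)).symm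
  · have h1 := (hy N le_rfl).right (by rw [div_self hNr.ne'])
    rw [div_self hNr.ne', sub_self, zero_mul] at h1
    exact dist_eq_zero.1 (le_antisymm h1 dist_nonneg)
  · intro i hi
    have h1 := dv_dist (hy i hi.le) (hy (i + 1) hi) (by positivity)
      ((div_le_one hNr).2 (by exact_mod_cast hi))
      (div_le_div_of_nonneg_right (by push_cast; linarith) hNr.le)
    rw [h1, ← sub_div]
    push_cast
    rw [show ((i : ℝ) + 1 - i) = 1 by ring, one_div, ← hd, inv_mul_le_iff₀ hNr]
    linarith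

/-- hyperbolic elements of the tree have an axis in `X` -/
lemma exists_axisX (hT : T.IsTree)
    (hact : ∀ (g : G) (u v : V), T.Adj u v → T.Adj (g • u) (g • v)) (hG : Geo X G) (o : X)
    {f : G} {w : V} (hf : OnAxis T f w) : ∃ (τ : ℝ) (c : ℝ → X), 0 < τ ∧ Axis f τ c := by
  have := hG.proper
  have := hG.isom
  obtain ⟨D1, hD1, hlift⟩ := lift hG o
  obtain ⟨C, hC⟩ := lip (T := T) hG o w (2 * D1 + 1)
  have hL : (1 : ℤ) ≤ D T w (f • w) := hf.1
  have h1 : ∀ n : ℕ, (n : ℝ) ≤ C * (dist o (f ^ n • o) + 2) := by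
    intro n
    obtain ⟨N, y, hN0, hN, hy0, hyN, hst⟩ := seg_chain hG.cn o (f ^ n • o)
    obtain ⟨x, hx0, hxN, -, hxs⟩ := hlift N y 1 (f ^ n) hN0 (by rw [hy0, one_smul]) hyN hst
    have h2 := walk_tree hT hact w C x 0 N fun j _ hj => hC _ (hxs j (by omega))
    rw [zero_add, hx0, hxN, one_smul, D_pow hT hact hf] at h2
    have h3 : (n : ℤ) ≤ N * C := by nlinarith
    have h4 : (n : ℝ) ≤ N * C := by exact_mod_cast h3
    have h5 : (N : ℝ) * C ≤ (dist o (f ^ n • o) + 2) * C :=
      mul_le_mul_of_nonneg_right hN (by positivity)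
    linarith
  have hCpos : (0 : ℝ) < C := by
    by_contra hcon
    have h2 := h1 1
    have h3 : (C : ℝ) = 0 := le_antisymm (not_lt.1 hcon) (by positivity)
    rw [h3] at h2
    norm_num at h2
  have hup : ∀ (m k : ℕ), dist o (f ^ (m * k) • o) ≤ k * dist o (f ^ m • o) := by
    intro m k
    induction k with
    | zero => simp
    | succ k ih =>
      have h2 := dist_triangle o (f ^ (m * k) • o) (f ^ (m * (k + 1)) • o)
      have h3 : dist (f ^ (m * k) • o) (f ^ (m * (k + 1)) • o) = dist o (f ^ m • o) := by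
        rw [mul_add, mul_one, pow_add, mul_smul, dist_smul]
      rw [h3] at h2
      push_cast
      linarith
  refine t_axis X G hG f o (1 / C) (by positivity) fun m => ?_
  rw [one_div, inv_mul_le_iff₀ hCpos]
  by_contra hcon
  push Not at hcon
  obtain ⟨k, hk⟩ := exists_nat_gt (2 * C / (m - C * dist o (f ^ m • o)))
  have hpos : 0 < (m : ℝ) - C * dist o (f ^ m • o) := by linarith
  rw [div_lt_iff₀ hpos] at hk
  have h2 := h1 (m * k)
  have h3 := hup m k
  push_cast at h2
  have h4 : (C : ℝ) * (dist o (f ^ (m * k) • o) + 2) ≤ C * (k * dist o (f ^ m • o) + 2) :=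
    mul_le_mul_of_nonneg_left (by linarith) hCpos.le
  nlinarith

/-- crossing a point of a segment -/
lemma cross (hT : T.IsTree) {x y A B z : V} (hz : P T z A B = 0)
    (h1 : D T z A - D T z B < D T x A - D T x B)
    (h2 : D T y A - D T y B ≤ D T z A - D T z B) : P T z x y = 0 := by
  have a1 : 0 < P T z x B := by
    have := D_tri hT x z A
    unfold P
    rw [D_comm x z] at this
    omega
  have a2 : P T z y B = 0 := by
    by_contra hne
    have h3 : 0 < P T z y B := lt_of_le_of_ne (P_nonneg hT _ _ _) (Ne.symm hne)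
    have h4 : P T z B A = 0 := by rw [P_comm]; exact hz
    have h5 : P T z y A = 0 := by
      by_contra h6
      have h7 : 0 < P T z y A := lt_of_le_of_ne (P_nonneg hT _ _ _) (Ne.symm h6)
      have h8 : 0 < P T z B A := dir_trans hT (z := y) (by rw [P_comm]; exact h3) h7
      omega
    unfold P at h5 h3
    omega
  by_contra hne
  have h3 : 0 < P T z x y := lt_of_le_of_ne (P_nonneg hT _ _ _) (Ne.symm hne)
  have h4 : 0 < P T z y B := dir_trans hT (z := x) (by rw [P_comm]; exact h3) a1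
  omega

/-- points far from the ends of a segment are on the nearby segments -/
lemma near_seg (hT : T.IsTree) {x y a a' p : V} {C : ℤ} (hx : D T x a ≤ C) (hy : D T y a' ≤ C)
    (hp : P T p a a' = 0) (h1 : C < D T p a) (h2 : C < D T p a') : P T p x y = 0 := by
  have b1 : 0 < P T p x a := by
    have := D_tri hT p x a
    unfold P; omega
  have b2 : 0 < P T p y a' := by
    have := D_tri hT p y a'
    unfold P; omega
  by_contra hne
  have h3 : 0 < P T p x y := lt_of_le_of_ne (P_nonneg hT _ _ _) (Ne.symm hne)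
  have h4 : 0 < P T p a y := dir_trans hT (z := x) (by rw [P_comm]; exact b1) h3
  have h5 : 0 < P T p a a' := dir_trans hT h4 b2
  omega

/-- few group elements move one segment near to another one -/
lemma finite_movers (hT : T.IsTree)
    (hact : ∀ (g : G) (u v : V), T.Adj u v → T.Adj (g • u) (g • v))
    {w P1 P2 a a' : V} {C : ℤ} (S : Set G) (hS : S.Finite)
    (hfin : {s : G | s • P1 = P1 ∧ s • P2 = P2}.Finite)
    (h1 : P T P1 a a' = 0) (h2 : P T P2 a a' = 0) (h3 : C < D T P1 a) (h4 : C < D T P1 a')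
    (h5 : C < D T P2 a) (h6 : C < D T P2 a') :
    {u : G | ∃ s ∈ S, D T (u • w) a ≤ C ∧ D T (u • s • w) a' ≤ C}.Finite := by
  set W : G → ℤ → ℤ → Set G := fun s i j => {u : G | D T (u • w) a ≤ C ∧ D T (u • s • w) a' ≤ C ∧
    D T (u • w) P1 = i ∧ D T (u • w) P2 = j} with hW
  have hWfin : ∀ s i j, (W s i j).Finite := by
    intro s i j
    rcases (W s i j).eq_empty_or_nonempty with he | ⟨u1, hu1⟩
    · rw [he]; exact finite_empty
    refine (hfin.image (fun z => z * u1)).subset ?_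
    intro u2 hu2
    obtain ⟨p1, p2, p3, p4⟩ := hu1
    obtain ⟨q1, q2, q3, q4⟩ := hu2
    refine ⟨u2 * u1⁻¹, ?_, by simp⟩
    have hfix : ∀ Q : V, P T Q a a' = 0 → C < D T Q a → C < D T Q a' →
        D T (u1 • w) Q = D T (u2 • w) Q → (u2 * u1⁻¹) • Q = Q := by
      intro Q r1 r2 r3 r4
      have e1 := near_seg hT p1 p2 r1 r2 r3
      have e2 := near_seg hT q1 q2 r1 r2 r3
      have f1 : D T (u2 • w) ((u2 * u1⁻¹) • Q) = D T (u1 • w) Q := by
        rw [← D_smul hT hact (u2 * u1⁻¹) (u1 • w) Q, smul_smul, inv_mul_cancel_right]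
      have f2 : D T ((u2 * u1⁻¹) • Q) (u2 • s • w) = D T Q (u1 • s • w) := by
        rw [← D_smul hT hact (u2 * u1⁻¹) Q (u1 • s • w), smul_smul _ u1, inv_mul_cancel_right]
      have f3 : D T (u2 • w) (u2 • s • w) = D T (u1 • w) (u1 • s • w) := by
        rw [D_smul hT hact, D_smul hT hact]
      have g1 : D T (u1 • w) Q + D T Q (u1 • s • w) = D T (u1 • w) (u1 • s • w) := by
        unfold P at e1; rw [D_comm Q] at e1; omega
      have g2 : D T (u2 • w) Q + D T Q (u2 • s • w) = D T (u2 • w) (u2 • s • w) := by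
        unfold P at e2; rw [D_comm Q] at e2; omega
      have g3 := D_on_geod hT (p := Q) (q := (u2 * u1⁻¹) • Q) g2 (by rw [f1, f2, f3]; exact g1)
        (by rw [f1, r4])
      rw [f1, r4, sub_self] at g3
      exact (D_eq_zero hT g3).symm
    exact ⟨hfix P1 h1 h3 h4 (by rw [p3, q3]), hfix P2 h2 h5 h6 (by rw [p4, q4])⟩
  have hbig : (⋃ s ∈ S, ⋃ i ∈ Icc (0 : ℤ) (C + D T a P1), ⋃ j ∈ Icc (0 : ℤ) (C + D T a P2),
      W s i j).Finite :=
    hS.biUnion fun s _ => (finite_Icc _ _).biUnion fun i _ =>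
      (finite_Icc _ _).biUnion fun j _ => hWfin s i j
  refine hbig.subset ?_
  rintro u ⟨s, hs, hu1, hu2⟩
  simp only [mem_iUnion]
  have t1 := D_tri hT (u • w) a P1
  have t2 := D_tri hT (u • w) a P2
  exact ⟨s, hs, _, ⟨D_nonneg _ _, by omega⟩, _, ⟨D_nonneg _ _, by omega⟩, hu1, hu2, rfl, rfl⟩

/-- **Finite segment stabilisers.** If `f` has an axis in the tree and a segment of this axis has a
finite stabiliser then `f` is a rank one isometry. -/
theorem rank_one_of_finite (hT : T.IsTree)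
    (hact : ∀ (g : G) (u v : V), T.Adj u v → T.Adj (g • u) (g • v)) (hG : Geo X G) (o0 : X)
    {f : G} {w : V} (hf : OnAxis T f w) (n : ℕ)
    (hfin : {s : G | s • w = w ∧ s • f ^ n • w = f ^ n • w}.Finite) : RankOne X f := by
  classical
  have := hG.proper
  have := hG.isom
  obtain ⟨τ, c, hτ, hc⟩ := exists_axisX hT hact hG o0 hf
  refine ⟨τ, c, hτ, hc, ?_⟩
  by_contra hne
  have hne' : (HP c).Nonempty := nonempty_iff_ne_empty.2 hne
  set o := c 0 with ho
  have hlnk := t_half X hG.cn o (fun t => c t) (fun t => c (-t))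
    ⟨rfl, fun s t _ _ => by rw [hc.1.dist_eq, Real.dist_eq]⟩
    ⟨by simp [ho], fun s t _ _ => by
      rw [hc.1.dist_eq, Real.dist_eq, ← abs_neg]; congr 1; ring⟩
    c 0 hc.1 (fun t _ => ⟨by simp, by simp⟩) hne'
  obtain ⟨D1, hD1, hlift⟩ := lift hG o
  set R := 2 * D1 + 1 with hR
  have hR0 : 0 < R := by positivity
  obtain ⟨C, hC⟩ := lip (T := T) hG o w R
  set L := D T w (f • w) with hL
  have hL1 : 1 ≤ L := hf.1
  set b := C + 1 with hb
  set q := b + n + b with hq
  have hq0 : 0 < q := by omega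
  have fd : ∀ i j : ℕ, i ≤ j → D T (f ^ i • w) (f ^ j • w) = ((j : ℤ) - i) * L :=
    fun i j h => D_pow_pow hT hact hf h
  have fd0 : ∀ j : ℕ, D T w (f ^ j • w) = j * L := fun j => D_pow hT hact hf j
  have hCL : (C : ℤ) < b * L := by rw [hb]; push_cast; nlinarith
  set L0 : ℝ := 21 * (2 * q * τ + 1) with hL0
  -- the finite set of movers
  have hYfin : {u : G | ∃ s ∈ {s : G | dist o (s • o) ≤ L0 * R}, D T (u • w) (f ^ q • w) ≤ C ∧
      D T (u • s • w) w ≤ C}.Finite := by
    refine finite_movers hT hact (P1 := f ^ b • w) (P2 := f ^ (b + n) • w) _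
      (finite_short hG o (L0 * R)) ?_ ?_ ?_ ?_ ?_ ?_ ?_
    · refine (hfin.image (fun z => f ^ b * z * (f ^ b)⁻¹)).subset ?_
      rintro s ⟨hs1, hs2⟩
      refine ⟨(f ^ b)⁻¹ * s * f ^ b, ⟨?_, ?_⟩, by group⟩
      · rw [mul_smul, mul_smul, hs1, inv_smul_smul]
      · rw [pow_add, mul_smul] at hs2
        rw [mul_smul, mul_smul, hs2, inv_smul_smul]
    · unfold P
      rw [fd b q (by omega), D_comm (f ^ b • w) w, fd0, D_comm (f ^ q • w) w, fd0]
      ring
    · unfold P
      rw [fd (b + n) q (by omega), D_comm (f ^ (b + n) • w) w, fd0, D_comm (f ^ q • w) w, fd0]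
      push_cast; ring
    · rw [fd b q (by omega), hq]; push_cast; nlinarith
    · rw [D_comm, fd0]; exact hCL
    · rw [fd (b + n) q (by omega), hq]; push_cast; nlinarith
    · rw [D_comm, fd0]; push_cast; nlinarith
  obtain ⟨R0, hR0'⟩ := (hYfin.image (fun u => dist o (u • o))).bddAbove
  have hR0Y : ∀ u s : G, dist o (s • o) ≤ L0 * R → D T (u • w) (f ^ q • w) ≤ C →
      D T (u • s • w) w ≤ C → dist o (u • o) ≤ R0 := fun u s h1 h2 h3 =>
    hR0' ⟨u, ⟨s, h1, h2, h3⟩, rfl⟩
  obtain ⟨M, hM⟩ := exists_nat_gt ((R0 + D1) / (q * τ) + 1)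
  have hqr : (0 : ℝ) < q := by exact_mod_cast hq0
  have hqτ : 0 < q * τ := mul_pos hqr hτ
  have hR0nn : 0 ≤ (R0 + D1) / (q * τ) + 1 ∨ (R0 + D1) / (q * τ) + 1 < 0 := le_or_gt _ _
  obtain ⟨M, hM, hM1⟩ : ∃ M : ℕ, (R0 + D1) / (q * τ) < M ∧ 1 ≤ M :=
    ⟨M + 1, by push_cast; linarith, by omega⟩
  rw [div_lt_iff₀ hqτ] at hM
  have hMr : (0 : ℝ) < M := by exact_mod_cast hM1
  set m := 2 * q * M with hm
  have hm0 : 0 < m := by positivity
  obtain ⟨N, y, hN, hy0, hyN, hyr, hst⟩ := hlnk (m * τ) (by positivity)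
  have e1 : c (m * τ) = f ^ m • o := by rw [ho, Pool.Agent.R632.CZ.Axis.nat hc m 0, zero_add]
  have e2 : c (-(m * τ)) = (f ^ m)⁻¹ • o := by
    rw [eq_inv_smul_iff, Pool.Agent.R632.CZ.Axis.nat hc m, ho]; congr 1; ring
  have hN0 : 0 < N := by
    rcases Nat.eq_zero_or_pos N with h | h
    · exfalso
      rw [h] at hyN
      have h1 : c (m * τ) = c (-(m * τ)) := hy0.symm.trans hyN
      have h2 := hc.1.injective h1
      have h3 : 0 < m * τ := by positivity
      linarith
    · exact h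
  obtain ⟨x, hx0, hxN, hxy, hxs⟩ := hlift N y (f ^ m) (f ^ m)⁻¹ hN0 (by rw [hy0]; exact e1)
    (by rw [hyN]; exact e2) hst
  -- the tree side
  set A := (f ^ m)⁻¹ • w with hA
  set Bp := f ^ m • w with hBp
  have hAd : ∀ k : ℕ, D T (f ^ k • w) A = (k + m) * L := by
    intro k
    have := D_pow_inv hT hact hf k m
    rw [inv_pow] at this
    exact this
  have hzA : ∀ k : ℕ, k ≤ m → D T (f ^ k • w) A - D T (f ^ k • w) Bp = 2 * k * L := by
    intro k hk
    rw [hAd, hBp, fd k m hk]; ring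
  have hzP : ∀ k : ℕ, k ≤ m → P T (f ^ k • w) A Bp = 0 := by
    intro k hk
    unfold P
    rw [hAd, hBp, fd k m hk, D_comm A, hAd]; ring
  set φ : V → ℤ := fun z => D T z A - D T z Bp with hφ
  have hex : ∀ k : ℕ, ∃ i, φ (x i • w) ≤ 2 * (q * k : ℕ) * L := by
    intro k
    refine ⟨N, ?_⟩
    rw [hxN]
    show D T A A - D T A Bp ≤ _
    rw [D_self, D_comm, hBp, hAd]
    push_cast
    nlinarith [mul_nonneg (mul_nonneg (by positivity : (0 : ℤ) ≤ q) (by positivity : (0:ℤ) ≤ k))
      (by omega : 0 ≤ L)]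
  set j : ℕ → ℕ := fun k => Nat.find (hex k) with hj
  have hjs : ∀ k, φ (x (j k) • w) ≤ 2 * (q * k : ℕ) * L := fun k => Nat.find_spec (hex k)
  have hjm : ∀ k i, φ (x i • w) ≤ 2 * (q * k : ℕ) * L → j k ≤ i :=
    fun k i h => Nat.find_min' (hex k) h
  have hjN : ∀ k, j k ≤ N := by
    intro k
    refine hjm k N ?_
    rw [hxN]
    show D T A A - D T A Bp ≤ _
    rw [D_self, D_comm, hBp, hAd]
    push_cast
    nlinarith [mul_nonneg (mul_nonneg (by positivity : (0 : ℤ) ≤ q) (by positivity : (0:ℤ) ≤ k))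
      (by omega : 0 ≤ L)]
  have hjanti : ∀ k, j (k + 1) ≤ j k := by
    intro k
    refine hjm (k + 1) (j k) ((hjs k).trans ?_)
    push_cast
    nlinarith [mul_nonneg (by positivity : (0 : ℤ) ≤ q) (by omega : 0 ≤ L)]
  have hqk : ∀ k, k ≤ M → q * k ≤ q * M := fun k hk => Nat.mul_le_mul_left q hk
  have hj1 : ∀ k, k ≤ M → 1 ≤ j k := by
    intro k hk
    by_contra hcon
    have h0 : j k = 0 := by omega
    have h1 := hjs k
    rw [h0, hx0] at h1
    have h2 : φ (f ^ m • w) = 2 * m * L := hzA m le_rfl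
    rw [h2] at h1
    have h3 : ((q * k : ℕ) : ℤ) < m := by
      have := hqk k hk
      have h4 : q * M < m := by rw [hm]; nlinarith
      exact_mod_cast lt_of_le_of_lt this h4
    nlinarith
  have hnear : ∀ k, k ≤ M → D T (x (j k) • w) (f ^ (q * k) • w) ≤ C := by
    intro k hk
    have hk1 := hj1 k hk
    have hkm : q * k ≤ m := by
      have := hqk k hk
      rw [hm]; nlinarith
    have h1 : 2 * (q * k : ℕ) * L < φ (x (j k - 1) • w) := by
      by_contra hcon
      have := hjm k (j k - 1) (not_lt.1 hcon)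
      omega
    have h2 := cross hT (x := x (j k - 1) • w) (y := x (j k) • w) (hzP (q * k) hkm)
      (by rw [hzA _ hkm]; exact h1) (by rw [hzA _ hkm]; exact hjs k)
    have h3 := walk_tree hT hact w C x (j k - 1) 1 fun i h4 h5 => hC _ (hxs i (by
      have := hjN k
      omega))
    rw [Nat.sub_add_cancel hk1] at h3
    have h4 := D_nonneg (T := T) (f ^ (q * k) • w) (x (j k - 1) • w)
    unfold P at h2
    rw [D_comm (x (j k) • w)]
    push_cast at h3
    omega
  obtain ⟨k, hkM, hk⟩ : ∃ k, k < M ∧ (j k - j (k + 1)) * M ≤ N := by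
    by_contra hcon
    push Not at hcon
    have h1 : ∀ k, k ≤ M → j k * M + k * (N + 1) ≤ j 0 * M := by
      intro k
      induction k with
      | zero => intro _; simp
      | succ k ih =>
        intro hk
        have h2 := ih (by omega)
        have h3 := hcon k (by omega)
        have h4 := hjanti k
        have h5 : (j k - j (k + 1)) * M = j k * M - j (k + 1) * M := Nat.sub_mul _ _ _
        have h6 : j (k + 1) * M ≤ j k * M := Nat.mul_le_mul_right M h4
        rw [h5] at h3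
        rw [add_mul k 1, one_mul]
        omega
    have h2 := h1 M le_rfl
    have h3 := hjN 0
    have h4 : j 0 * M ≤ N * M := Nat.mul_le_mul_right M h3
    nlinarith
  set a1 := j (k + 1) with ha1
  set a2 := j k with ha2
  have ha12 : a1 ≤ a2 := hjanti k
  set u := (f ^ (q * k))⁻¹ * x a1 with hu
  set s := (x a1)⁻¹ * x a2 with hs
  have hs1 : dist o (s • o) ≤ L0 * R := by
    have h1 := walk_space o R x a1 (a2 - a1) fun i h2 h3 => hxs i (by
      have := hjN k
      omega)
    rw [Nat.add_sub_cancel' ha12] at h1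
    have h2 : dist o (s • o) = dist (x a1 • o) (x a2 • o) := by
      rw [hs, mul_smul, ← dist_smul (x a1), smul_inv_smul]
    rw [h2]
    refine h1.trans (mul_le_mul_of_nonneg_right ?_ hR0.le)
    have h3 : ((a2 - a1 : ℕ) : ℝ) * M ≤ N := by exact_mod_cast hk
    have h4 : (N : ℝ) ≤ L0 * M := by
      refine hN.trans ?_
      rw [hL0, hm]
      push_cast
      have h5 : (1 : ℝ) ≤ M := by exact_mod_cast hM1
      nlinarith
    exact le_of_mul_le_mul_right (h3.trans h4) hMr
  have hu1 : D T (u • w) (f ^ q • w) ≤ C := by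
    have h1 := hnear (k + 1) (by omega)
    have e : f ^ (q * (k + 1)) • w = f ^ (q * k) • f ^ q • w := by
      rw [smul_smul, ← pow_add]; congr 2
    rw [e, ← D_smul hT hact (f ^ (q * k))⁻¹, inv_smul_smul, smul_smul] at h1
    exact h1
  have hu2 : D T (u • s • w) w ≤ C := by
    have h1 := hnear k hkM.le
    rw [← D_smul hT hact (f ^ (q * k))⁻¹, inv_smul_smul, smul_smul] at h1
    have e : u • s • w = ((f ^ (q * k))⁻¹ * x a2) • w := by
      rw [smul_smul, hu, hs]; congr 1; group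
    rw [e]
    exact h1
  have h1 := hR0Y u s hs1 hu1 hu2
  have h2 : dist (x a1 • o) o ≤ R0 + (q * k) * τ := by
    have e : x a1 • o = f ^ (q * k) • u • o := by rw [hu, smul_smul, mul_inv_cancel_left]
    have h3 := dist_triangle (f ^ (q * k) • u • o) (f ^ (q * k) • o) o
    rw [dist_smul, dist_comm (u • o)] at h3
    have h4 : dist (f ^ (q * k) • o) o = (q * k) * τ := by
      rw [ho, Pool.Agent.R632.CZ.Axis.nat hc (q * k) 0, hc.1.dist_eq, Real.dist_eq, zero_add, sub_zero,
        abs_of_nonneg (by positivity)]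
      push_cast; ring
    rw [e]
    linarith
  have h3 : m * τ ≤ dist (x a1 • o) o + D1 := by
    have h4 := hxy a1 (hjN _)
    have h5 := hyr a1 (hjN _)
    have h6 := dist_triangle o (x a1 • o) (y a1)
    rw [h5, dist_comm o] at h6
    linarith
  have h4 : ((q : ℝ) * k) * τ ≤ q * M * τ := by
    have : (k : ℝ) ≤ M := by exact_mod_cast hkM.le
    nlinarith
  have h5 : (m : ℝ) = 2 * q * M := by rw [hm]; push_cast; ring
  rw [h5] at h3
  nlinarith

end tree

end Pool.Agent.T6.H46.RR
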