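import Pool.Agent.Y219.EL.Axis
import Pool.Agent.TH60.FP.Strip

/-!
# Points moved minimally by all elements of a finitely generated abelian group
-/

set_option autoImplicit false

open Metric Set Filter Topology
open Pool.Agent.TH60.FP Pool.Agent.TH60.FP.Strip Pool.Agent.Y34.HB Pool.Agent.Y219.EL

namespace Pool.Agent.T6.H46.RR

variable {X : Type} [MetricSpace X] {G : Type} [Group G] [MulAction G X]

/-- `x` is moved by the minimal amount by `a` -/
def IsMin (a : G) (x : X) : Prop := ∀ z : X, dist x (a • x) ≤ dist z (a • z)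

lemma IsMin.smul [IsIsometricSMul G X] {a : G} {x : X} (h : IsMin a x) (g : G) :
    IsMin (g * a * g⁻¹) (g • x) := by
  intro z
  have e1 : (g * a * g⁻¹) • g • x = g • a • x := by rw [mul_smul, mul_smul, inv_smul_smul]
  have e2 : dist z ((g * a * g⁻¹) • z) = dist (g⁻¹ • z) (a • g⁻¹ • z) := by
    rw [← dist_smul g (g⁻¹ • z), smul_inv_smul, mul_smul, mul_smul]
  rw [e1, dist_smul, e2]
  exact h _

lemma IsMin.inv [IsIsometricSMul G X] {a : G} {x : X} (h : IsMin a x) : IsMin a⁻¹ x := by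
  have e : ∀ z : X, dist z (a⁻¹ • z) = dist z (a • z) := by
    intro z
    rw [← dist_smul a z (a⁻¹ • z), smul_inv_smul, dist_comm]
  intro z
  rw [e, e]
  exact h z

/-- linear growth along some powers gives minimality -/
lemma isMin_of_growth [IsIsometricSMul G X] {a : G} {x : X}
    (h : ∀ N : ℕ, ∃ n : ℕ, N ≤ n ∧ n * dist x (a • x) ≤ dist x (a ^ n • x)) : IsMin a x := by
  intro z
  have hup : ∀ n : ℕ, dist z (a ^ n • z) ≤ n * dist z (a • z) := by
    intro n
    induction n with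
    | zero => simp
    | succ n ih =>
      have h1 := dist_triangle z (a ^ n • z) (a ^ (n + 1) • z)
      have h2 : dist (a ^ n • z) (a ^ (n + 1) • z) = dist z (a • z) := by
        rw [pow_succ, mul_smul, dist_smul]
      rw [h2] at h1
      push_cast
      linarith
  by_contra hcon
  push Not at hcon
  obtain ⟨N, hN⟩ := exists_nat_gt (2 * dist x z / (dist x (a • x) - dist z (a • z)))
  obtain ⟨n, hn, hn2⟩ := h N
  have hpos : 0 < dist x (a • x) - dist z (a • z) := by linarith
  rw [div_lt_iff₀ hpos] at hN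
  have h1 := dist_triangle4 x z (a ^ n • z) (a ^ n • x)
  rw [dist_smul, dist_comm z x] at h1
  have h2 := hup n
  have h3 : (N : ℝ) * (dist x (a • x) - dist z (a • z)) ≤
      n * (dist x (a • x) - dist z (a • z)) :=
    mul_le_mul_of_nonneg_right (by exact_mod_cast hn) hpos.le
  nlinarith

/-- collinear orbits -/
lemma growth_of_two (hX : CN X) [IsIsometricSMul G X] {a : G} {x : X}
    (h : 2 * dist x (a • x) ≤ dist x (a ^ 2 • x)) (n : ℕ) :
    n * dist x (a • x) ≤ dist x (a ^ n • x) := by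
  set δ := dist x (a • x) with hδ
  have hδ0 : 0 ≤ δ := dist_nonneg
  have hmid : ∀ n : ℕ, dist x (a ^ (n + 1) • x) ^ 2 ≤
      (dist x (a ^ n • x) ^ 2 + dist x (a ^ (n + 2) • x) ^ 2) / 2 - δ ^ 2 := by
    intro n
    obtain ⟨m, hm⟩ := hX (a ^ n • x) (a ^ (n + 2) • x)
    have d1 : dist (a ^ (n + 1) • x) (a ^ n • x) = δ := by
      rw [pow_succ, mul_smul, dist_smul, dist_comm]
    have d2 : dist (a ^ (n + 1) • x) (a ^ (n + 2) • x) = δ := by
      rw [show n + 2 = n + 1 + 1 by ring, pow_succ a (n + 1), mul_smul, dist_smul]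
    have d3 : 2 * δ ≤ dist (a ^ n • x) (a ^ (n + 2) • x) := by
      rw [pow_add, mul_smul, dist_smul]; exact h
    have d4 : (2 * δ) ^ 2 ≤ dist (a ^ n • x) (a ^ (n + 2) • x) ^ 2 :=
      pow_le_pow_left₀ (by positivity) d3 2
    have h1 := hm (a ^ (n + 1) • x)
    rw [d1, d2] at h1
    have h2 : dist (a ^ (n + 1) • x) m ^ 2 ≤ 0 := by nlinarith
    have h3 : dist (a ^ (n + 1) • x) m = 0 :=
      pow_eq_zero_iff two_ne_zero |>.1 (le_antisymm h2 (sq_nonneg _))
    have h4 : a ^ (n + 1) • x = m := dist_eq_zero.1 h3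
    rw [h4]
    have h5 := hm x
    nlinarith
  have hrec : ∀ n : ℕ, (2 * (n : ℝ) + 1) * δ ^ 2 ≤
      dist x (a ^ (n + 1) • x) ^ 2 - dist x (a ^ n • x) ^ 2 := by
    intro n
    induction n with
    | zero => simp [hδ]
    | succ n ih =>
      have := hmid n
      rw [show n + 1 + 1 = n + 2 by ring]
      push_cast
      nlinarith
  have hsq : ∀ n : ℕ, (n : ℝ) ^ 2 * δ ^ 2 ≤ dist x (a ^ n • x) ^ 2 := by
    intro n
    induction n with
    | zero => simp
    | succ n ih =>
      have := hrec n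
      push_cast
      nlinarith
  have := hsq n
  rw [← mul_pow] at this
  exact le_of_sq' dist_nonneg this

/-- the sum of the displacements of finitely many elements attains its minimum -/
lemma exists_min_sum (hG : Geo X G) (F : Finset G) (x : X) :
    ∃ y : X, ∀ z : X, ∑ a ∈ F, dist y (a • y) ≤ ∑ a ∈ F, dist z (a • z) := by
  classical
  have := hG.proper
  have := hG.isom
  have := hG.disc
  obtain ⟨K, hK, hcov⟩ := hG.cc
  set D : ℝ := ∑ a ∈ F, dist x (a • x) with hD
  have hD0 : 0 ≤ D := Finset.sum_nonneg fun _ _ => dist_nonneg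
  set S0 : Set G := {k | ∃ z ∈ K, dist z (k • z) ≤ D} with hS0
  have hfin0 : S0.Finite := by
    have h1 := finite_disjoint_inter_image (Γ := G) hK (hK.cthickening (r := D))
    refine h1.subset ?_
    rintro k ⟨z, hz, hzk⟩
    rw [Set.mem_ofPred_eq]
    refine ⟨k • z, ⟨z, hz, rfl⟩, ?_⟩
    refine mem_cthickening_of_dist_le (k • z) z D K hz ?_
    rw [dist_comm]
    exact hzk
  -- the tuples of conjugates
  set S : Set (F → G) := {b | (∃ h : G, ∀ a : F, b a = h * a * h⁻¹) ∧ ∀ a, b a ∈ S0} with hS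
  have hfin : S.Finite := by
    refine (Set.Finite.pi' (fun _ : F => hfin0)).subset ?_
    rintro b ⟨-, hb⟩
    exact hb
  have hsum : ∀ z : X, ∑ a ∈ F, dist z (a • z) = ∑ a : F, dist z ((a : G) • z) := by
    intro z
    exact (Finset.sum_coe_sort F (fun a => dist z (a • z))).symm
  have hconj : ∀ (h : G) (z : X) (a : F), dist (h • z) ((h * a * h⁻¹) • h • z) =
      dist z ((a : G) • z) := by
    intro h z a
    rw [mul_smul, mul_smul, inv_smul_smul, dist_smul]
  have hmem : ∀ z : X, ∑ a ∈ F, dist z (a • z) ≤ D → ∀ h : G, h • z ∈ K →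
      (fun a : F => h * a * h⁻¹) ∈ S := by
    intro z hz h hh
    refine ⟨⟨h, fun _ => rfl⟩, fun a => ⟨h • z, hh, ?_⟩⟩
    show dist (h • z) ((h * a * h⁻¹) • h • z) ≤ D
    rw [hconj]
    refine le_trans ?_ hz
    rw [hsum]
    exact Finset.single_le_sum (f := fun a : F => dist z ((a : G) • z))
      (fun _ _ => dist_nonneg) (Finset.mem_univ a)
  obtain ⟨hx, hxK⟩ := hcov x
  have hmin : ∀ b : F → G, ∃ z ∈ K, ∀ z' ∈ K, ∑ a, dist z (b a • z) ≤ ∑ a, dist z' (b a • z') := by
    intro b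
    have hc : Continuous fun z : X => ∑ a, dist z (b a • z) :=
      continuous_finsetSum _ fun a _ => continuous_id.dist (isometry_smul X (b a)).continuous
    obtain ⟨z, hz, hzm⟩ := hK.exists_isMinOn ⟨_, hxK⟩ hc.continuousOn
    exact ⟨z, hz, fun z' hz' => hzm hz'⟩
  choose w hwK hw using hmin
  have hSne : hfin.toFinset.Nonempty :=
    ⟨_, hfin.mem_toFinset.2 (hmem x le_rfl hx hxK)⟩
  obtain ⟨b, hb, hbm⟩ := hfin.toFinset.exists_min_image
    (fun b => ∑ a, dist (w b) (b a • w b)) hSne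
  obtain ⟨⟨h, hbh⟩, -⟩ := hfin.mem_toFinset.1 hb
  have hmain : ∀ z : X, ∑ a ∈ F, dist z (a • z) ≤ D →
      ∑ a ∈ F, dist (h⁻¹ • w b) (a • h⁻¹ • w b) ≤ ∑ a ∈ F, dist z (a • z) := by
    intro z hz
    obtain ⟨h', hh'⟩ := hcov z
    have hs := hmem z hz h' hh'
    have h1 := hbm _ (hfin.mem_toFinset.2 hs)
    have h2 := hw (fun a : F => h' * a * h'⁻¹) (h' • z) hh'
    have e1 : ∑ a ∈ F, dist (h⁻¹ • w b) (a • h⁻¹ • w b) = ∑ a, dist (w b) (b a • w b) := by
      rw [hsum]
      refine Finset.sum_congr rfl fun a _ => ?_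
      rw [hbh a, ← hconj h (h⁻¹ • w b) a, smul_inv_smul]
    have e2 : ∑ a, dist (h' • z) ((fun a : F => h' * a * h'⁻¹) a • h' • z) =
        ∑ a ∈ F, dist z (a • z) := by
      rw [hsum]
      exact Finset.sum_congr rfl fun a _ => hconj h' z a
    rw [e1]
    rw [e2] at h2
    exact h1.trans h2
  refine ⟨h⁻¹ • w b, fun z => ?_⟩
  rcases le_total (∑ a ∈ F, dist z (a • z)) D with hz | hz
  · exact hmain z hz
  · exact (hmain x le_rfl).trans hz

/-- finitely many commuting elements have a common point of minimal displacement -/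
lemma exists_common (hG : Geo X G) (F : Finset G) (hF : ∀ a ∈ F, ∀ b ∈ F, a * b = b * a) (x : X) :
    ∃ y : X, ∀ a ∈ F, IsMin a y := by
  classical
  have := hG.isom
  obtain ⟨y, hy⟩ := exists_min_sum hG F x
  refine ⟨y, fun a ha => ?_⟩
  obtain ⟨m, hm⟩ := hG.cn y (a • y)
  have hm' : ∀ (b : G) (x : X), dist x (b • m) ^ 2 ≤
      (dist x (b • y) ^ 2 + dist x (b • a • y) ^ 2) / 2 - dist (b • y) (b • a • y) ^ 2 / 4 := by
    intro b x
    have := hm (b⁻¹ • x)
    rwa [← dist_smul b (b⁻¹ • x) m, ← dist_smul b (b⁻¹ • x) y, ← dist_smul b (b⁻¹ • x) (a • y),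
      smul_inv_smul, ← dist_smul b y (a • y)] at this
  have hb : ∀ b ∈ F, dist m (b • m) ≤ dist y (b • y) := by
    intro b hbF
    obtain ⟨p, hp⟩ := hG.cn y (b • a • y)
    have h1 : dist m p ≤ dist (a • y) (b • a • y) / 2 := half_side (a := y) hm hp
    have h2 : dist (b • m) p ≤ dist (b • y) y / 2 := by
      refine half_side (a := b • a • y) (b := b • y) (e := y) (fun x => ?_) (fun x => ?_)
      · have := hm' b x
        rw [dist_comm (b • a • y)]
        linarith
      · have := hp x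
        rw [dist_comm (b • a • y)]
        linarith
    have h3 : dist (a • y) (b • a • y) = dist y (b • y) := by
      rw [smul_smul b a, ← hF a ha b hbF, mul_smul, dist_smul]
    have h4 := dist_triangle_right m (b • m) p
    rw [dist_comm (b • y)] at h2
    linarith
  have ha2 : dist m (a • m) ≤ dist y (a ^ 2 • y) / 2 := by
    rw [pow_two, mul_smul]
    refine half_side (a := a • y) (b := y) (e := a • a • y) (fun x => ?_) (fun x => ?_)
    · have := hm x
      rw [dist_comm (a • y)]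
      linarith
    · exact hm' a x
  have h1 := hy m
  have h2 : ∑ b ∈ F, dist m (b • m) ≤
      ∑ b ∈ F, dist y (b • y) + (dist m (a • m) - dist y (a • y)) := by
    rw [← Finset.add_sum_erase F _ ha, ← Finset.add_sum_erase F (fun b => dist y (b • y)) ha]
    have : ∑ b ∈ F.erase a, dist m (b • m) ≤ ∑ b ∈ F.erase a, dist y (b • y) :=
      Finset.sum_le_sum fun b hb' => hb b (Finset.mem_of_mem_erase hb')
    linarith
  have h3 : 2 * dist y (a • y) ≤ dist y (a ^ 2 • y) := by linarith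
  exact isMin_of_growth fun N => ⟨N, le_rfl, growth_of_two hG.cn h3 N⟩

lemma growth_of_isMin (hX : CN X) [IsIsometricSMul G X] {a : G} {x : X} (h : IsMin a x) (n : ℕ) :
    dist x (a ^ n • x) = n * dist x (a • x) :=
  orbit_dist a (doubling hX a h · x) n

/-- points of minimal displacement of commuting elements -/
lemma IsMin.mul (hX : CN X) [IsIsometricSMul G X] {a b : G} {x : X} (ha : IsMin a x)
    (hb : IsMin b x) (hab : a * b = b * a) : IsMin (a * b) x := by
  have hc : Commute a b := hab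
  set α := dist x (a • x) with hα
  set β := dist x (b • x) with hβ
  let p : ℕ → ℝ := fun j => dist x ((a * b) ^ 2 ^ j • x) ^ 2
  let q : ℕ → ℝ := fun j => dist x ((a * b⁻¹) ^ 2 ^ j • x) ^ 2
  have hcm : ∀ n : ℕ, (a * b) ^ n = a ^ n * b ^ n := fun n => hc.mul_pow n
  have hcm' : ∀ n : ℕ, (a * b⁻¹) ^ n = a ^ n * b⁻¹ ^ n := fun n => hc.inv_right.mul_pow n
  have key : ∀ j, p j + q j = 2 * ((2 ^ j) ^ 2 * (α ^ 2 + β ^ 2)) := by
    intro j
    set M : ℕ := 2 ^ j with hM
    set A := a ^ M with hA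
    set B := b ^ M with hBd
    have hAB : A * B = B * A := (hc.pow_pow M M)
    have hABi : A * B⁻¹ = B⁻¹ * A := ((hc.pow_pow M M).inv_right)
    have dA : dist x (A • x) = M * α := growth_of_isMin hX ha M
    have dB : dist x (B • x) = M * β := growth_of_isMin hX hb M
    have dA2 : dist x (A • A • x) = 2 * (M * α) := by
      have := growth_of_isMin hX ha (M + M)
      rw [pow_add, mul_smul] at this
      rw [this]; push_cast; ring
    have dB2 : dist x (B • B • x) = 2 * (M * β) := by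
      have := growth_of_isMin hX hb (M + M)
      rw [pow_add, mul_smul] at this
      rw [this]; push_cast; ring
    have ep : p j = dist x (A • B • x) ^ 2 := by
      show dist x ((a * b) ^ M • x) ^ 2 = _
      rw [hcm, mul_smul]
    have eq : q j = dist (B • x) (A • x) ^ 2 := by
      show dist x ((a * b⁻¹) ^ M • x) ^ 2 = _
      rw [hcm', ← dist_smul B x, smul_smul, ← mul_assoc, ← hAB, mul_assoc, inv_pow,
        mul_inv_cancel, mul_one]
    have hM2 : ((2 : ℝ) ^ j) = M := by rw [hM]; push_cast; rfl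
    rw [hM2]
    apply le_antisymm
    · have h1 := four hX x (A • x) (A • B • x) (B • x)
      have e1 : dist (A • x) (A • B • x) = M * β := by rw [dist_smul, dB]
      have e2 : dist (A • B • x) (B • x) = M * α := by
        rw [smul_smul, hAB, mul_smul, dist_smul, dist_comm, dA]
      rw [e1, e2, dist_comm (A • x) (B • x), dist_comm (B • x) x, dA, dB, ← ep, ← eq] at h1
      linarith
    · have h1 := four hX x (A • B • x) (A • A • x) (A • B⁻¹ • x)
      have e1 : dist (A • B • x) (A • A • x) ^ 2 = q j := by rw [dist_smul, eq]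
      have e2 : dist (A • A • x) (A • B⁻¹ • x) ^ 2 = p j := by
        rw [dist_smul, ← dist_smul B, smul_inv_smul, smul_smul, ← hAB, mul_smul, dist_comm, ep]
      have e3 : dist (A • B⁻¹ • x) x ^ 2 = q j := by
        rw [smul_smul, hABi, mul_smul, ← dist_smul B, smul_inv_smul, dist_comm, eq]
      have e4 : dist (A • B • x) (A • B⁻¹ • x) = 2 * (M * β) := by
        rw [dist_smul, ← dist_smul B, smul_inv_smul, dist_comm, dB2]
      rw [e1, e2, e3, e4, dA2, ← ep] at h1
      nlinarith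
  have hpq : ∀ (c : G) (j : ℕ), dist x (c ^ 2 ^ (j + 1) • x) ^ 2 ≤ 4 * dist x (c ^ 2 ^ j • x) ^ 2 := by
    intro c j
    have e : c ^ 2 ^ (j + 1) • x = c ^ 2 ^ j • c ^ 2 ^ j • x := by
      rw [smul_smul, ← pow_add]
      congr 2
      rw [pow_succ]; ring
    have h1 := dist_triangle x (c ^ 2 ^ j • x) (c ^ 2 ^ (j + 1) • x)
    rw [e, dist_smul, ← e] at h1
    have h2 : dist x (c ^ 2 ^ (j + 1) • x) ^ 2 ≤ (2 * dist x (c ^ 2 ^ j • x)) ^ 2 :=
      pow_le_pow_left₀ dist_nonneg (by linarith) 2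
    linarith
  have hp : ∀ j, p (j + 1) = 4 * p j := by
    intro j
    have h1 := key j
    have h2 := key (j + 1)
    have h3 : p (j + 1) ≤ 4 * p j := hpq _ j
    have h4 : q (j + 1) ≤ 4 * q j := hpq _ j
    have e : ((2 : ℝ) ^ (j + 1)) ^ 2 = 4 * (2 ^ j) ^ 2 := by rw [pow_succ]; ring
    rw [e] at h2
    nlinarith
  have hp2 : ∀ j, p j = (2 ^ j) ^ 2 * p 0 := by
    intro j
    induction j with
    | zero => simp
    | succ j ih =>
      rw [hp, ih, pow_succ]; ring
  refine isMin_of_growth fun N => ⟨2 ^ N, Nat.lt_two_pow_self.le, ?_⟩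
  have h1 := hp2 N
  have e0 : p 0 = dist x ((a * b) • x) ^ 2 := by
    show dist x ((a * b) ^ 2 ^ 0 • x) ^ 2 = _
    rw [pow_zero, pow_one]
  rw [e0, ← mul_pow] at h1
  have h2 : (2 ^ N * dist x ((a * b) • x)) ^ 2 ≤ dist x ((a * b) ^ 2 ^ N • x) ^ 2 := h1.ge
  push_cast
  exact le_of_sq' dist_nonneg h2

lemma isMin_one (x : X) : IsMin (1 : G) x := by
  intro z; simp

/-- a finitely generated abelian group has a common point of minimal displacement -/
theorem exists_torus_point (hG : Geo X G) (A : Subgroup G) (hfg : A.FG)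
    (hcomm : ∀ a ∈ A, ∀ b ∈ A, a * b = b * a) (x : X) : ∃ y : X, ∀ a ∈ A, IsMin a y := by
  have := hG.isom
  obtain ⟨F, hF⟩ := hfg
  have hFA : ∀ a ∈ F, a ∈ A := fun a ha => hF ▸ Subgroup.subset_closure ha
  obtain ⟨y, hy⟩ := exists_common hG F (fun a ha b hb => hcomm a (hFA a ha) b (hFA b hb)) x
  refine ⟨y, fun a ha => ?_⟩
  have h1 : a ∈ Subgroup.closure (F : Set G) := by rw [hF]; exact ha
  have h2 : a ∈ A ∧ IsMin a y := by
    induction h1 using Subgroup.closure_induction with
    | mem a haF => exact ⟨hFA a haF, hy a haF⟩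
    | one => exact ⟨A.one_mem, isMin_one y⟩
    | mul a b ha' hb' iha ihb =>
      obtain ⟨ha1, ha2⟩ := iha (hF ▸ ha')
      obtain ⟨hb1, hb2⟩ := ihb (hF ▸ hb')
      exact ⟨A.mul_mem ha1 hb1, ha2.mul hG.cn hb2 (hcomm a ha1 b hb1)⟩
    | inv a ha' iha =>
      obtain ⟨ha1, ha2⟩ := iha (hF ▸ ha')
      exact ⟨A.inv_mem ha1, ha2.inv⟩
  exact h2.2

end Pool.Agent.T6.H46.RR
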