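import Pool.Agent.Y34.EL.All
import Pool.Agent.R632.CZ.Axes
import Pool.Agent.T6.H46.RR.Tor

/-!
# A space which is the union of the lines parallel to a given line is a product
-/

set_option autoImplicit false

open Metric Set Filter Topology
open Pool.Agent.TH60.FP Pool.Agent.TH60.FP.Strip Pool.Agent.Y34.HB Pool.Agent.Y34.EL
open Pool.Agent.Y219.EL Pool.Agent.Y155.HB

namespace Pool.Agent.T6.H46.RR

variable {X : Type} [MetricSpace X]

/-! ### an axis through a point of minimal displacement -/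

theorem axis_through {G : Type} [Group G] [MulAction G X] [ProperSpace X] [IsIsometricSMul G X]
    (hX : CN X) {g : G} {y : X} (hy : IsMin g y) (hδ0 : 0 < dist y (g • y)) :
    ∃ c : ℝ → X, Axis g (dist y (g • y)) c ∧ c 0 = y := by
  set δ : ℝ := dist y (g • y) with hδ
  have horb := orbit_dist g (doubling hX g hy · y)
  have hz := orbit_zdist g horb
  rw [← hδ] at hz
  -- the segment
  have hseg : ∀ s : ℝ, ∃ m : X, 0 ≤ s → s ≤ δ → Dv y (g • y) (s / δ) m := by
    intro s
    by_cases h : 0 ≤ s ∧ s ≤ δ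
    · obtain ⟨m, hm⟩ := dv_exists hX y (g • y) (s / δ) (div_nonneg h.1 hδ0.le)
        ((div_le_one hδ0).2 h.2)
      exact ⟨m, fun _ _ => hm⟩
    · exact ⟨y, fun h1 h2 => absurd ⟨h1, h2⟩ h⟩
  choose w hw using hseg
  have hww : ∀ s t : ℝ, 0 ≤ s → s ≤ t → t ≤ δ → dist (w s) (w t) = t - s := by
    intro s t hs hst ht
    rw [dv_dist (hw s hs (hst.trans ht)) (hw t (hs.trans hst) ht) (div_nonneg hs hδ0.le)
      ((div_le_one hδ0).2 ht) (div_le_div_of_nonneg_right hst hδ0.le), ← hδ, ← sub_div,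
      div_mul_cancel₀ _ hδ0.ne']
  have hyw : ∀ s : ℝ, 0 ≤ s → s ≤ δ → dist y (w s) ≤ s := by
    intro s hs hsδ
    have h1 := (hw s hs hsδ).left (div_nonneg hs hδ0.le)
    rwa [← hδ, div_mul_cancel₀ _ hδ0.ne'] at h1
  have hgw : ∀ s : ℝ, 0 ≤ s → s ≤ δ → dist (w s) (g • y) ≤ δ - s := by
    intro s hs hsδ
    have h1 := (hw s hs hsδ).right ((div_le_one hδ0).2 hsδ)
    rwa [← hδ, sub_mul, one_mul, div_mul_cancel₀ _ hδ0.ne'] at h1
  -- the axis
  set i : ℝ → ℤ := fun t => ⌊t / δ⌋ with hi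
  set c : ℝ → X := fun t => g ^ i t • w (t - i t * δ) with hc
  have hi1 : ∀ t, 0 ≤ t - i t * δ := by
    intro t
    have h1 : (i t : ℝ) ≤ t / δ := Int.floor_le _
    rw [le_div_iff₀ hδ0] at h1
    linarith
  have hi2 : ∀ t, t - i t * δ ≤ δ := by
    intro t
    have h1 : t / δ < i t + 1 := Int.lt_floor_add_one _
    rw [div_lt_iff₀ hδ0] at h1
    linarith
  have hle : ∀ s t : ℝ, s ≤ t → dist (c s) (c t) = t - s := by
    intro s t hst
    have hij : i s ≤ i t := Int.floor_le_floor (div_le_div_of_nonneg_right hst hδ0.le)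
    rcases hij.eq_or_lt with h | h
    · show dist (g ^ i s • w (s - i s * δ)) (g ^ i t • w (t - i t * δ)) = t - s
      rw [← h, dist_smul, hww _ _ (hi1 s) (by linarith) (by rw [h]; exact hi2 t)]
      ring
    · have hcs1 : dist (g ^ i s • y) (c s) ≤ s - i s * δ := by
        show dist (g ^ i s • y) (g ^ i s • w (s - i s * δ)) ≤ _
        rw [dist_smul]
        exact hyw _ (hi1 s) (hi2 s)
      have hcs2 : dist (c s) (g ^ (i s + 1) • y) ≤ δ - (s - i s * δ) := by
        show dist (g ^ i s • w (s - i s * δ)) (g ^ (i s + 1) • y) ≤ _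
        rw [zpow_add_one, mul_smul, dist_smul]
        exact hgw _ (hi1 s) (hi2 s)
      have hct1 : dist (g ^ i t • y) (c t) ≤ t - i t * δ := by
        show dist (g ^ i t • y) (g ^ i t • w (t - i t * δ)) ≤ _
        rw [dist_smul]
        exact hyw _ (hi1 t) (hi2 t)
      have hct2 : dist (c t) (g ^ (i t + 1) • y) ≤ δ - (t - i t * δ) := by
        show dist (g ^ i t • w (t - i t * δ)) (g ^ (i t + 1) • y) ≤ _
        rw [zpow_add_one, mul_smul, dist_smul]
        exact hgw _ (hi1 t) (hi2 t)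
      apply le_antisymm
      · have h1 := dist_triangle4 (c s) (g ^ (i s + 1) • y) (g ^ i t • y) (c t)
        have h2 := hz (i s + 1) (i t) h
        push_cast at h2
        rw [h2] at h1
        nlinarith
      · have h1 := dist_triangle4 (g ^ i s • y) (c s) (c t) (g ^ (i t + 1) • y)
        have h2 := hz (i s) (i t + 1) (by omega)
        push_cast at h2
        rw [h2] at h1
        nlinarith
  refine ⟨c, ⟨Isometry.of_dist_eq fun s t => ?_, fun t => ?_⟩, ?_⟩
  · rcases le_total s t with h | h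
    · rw [hle s t h, Real.dist_eq, abs_sub_comm, abs_of_nonneg (by linarith)]
    · rw [dist_comm, hle t s h, Real.dist_eq, abs_of_nonneg (by linarith)]
  · have h1 : i (t + δ) = i t + 1 := by
      show ⌊(t + δ) / δ⌋ = ⌊t / δ⌋ + 1
      rw [add_div, div_self hδ0.ne', Int.floor_add_one]
    show g • g ^ i t • w (t - i t * δ) = g ^ i (t + δ) • w (t + δ - i (t + δ) * δ)
    rw [h1, add_comm (i t) 1, zpow_add, zpow_one, mul_smul]
    congr 3
    push_cast
    ring
  · have h0 : i 0 = 0 := by simp [hi]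
    show g ^ i 0 • w (0 - i 0 * δ) = y
    rw [h0, zpow_zero, one_smul, Int.cast_zero, zero_mul, sub_zero]
    have := hyw 0 le_rfl hδ0.le
    exact (dist_eq_zero.1 (le_antisymm this dist_nonneg)).symm

/-! ### the parallel set of a line -/

lemma par_symm {c c' : ℝ → X} (h : Par c c') : Par c' c := by
  obtain ⟨B, hB⟩ := h
  exact ⟨B, fun t => by rw [dist_comm]; exact hB t⟩

lemma par_trans {a b c : ℝ → X} (h : Par a b) (h' : Par b c) : Par a c := by
  obtain ⟨B, hB⟩ := h
  obtain ⟨B', hB'⟩ := h'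
  exact ⟨B + B', fun t => (dist_triangle _ _ _).trans (add_le_add (hB t) (hB' t))⟩

lemma par_shift {c : ℝ → X} (hc : Isometry c) (o : ℝ) : Par c (fun t => c (t + o)) :=
  ⟨|o|, fun t => by rw [hc.dist_eq, Real.dist_eq]; apply le_of_eq; rw [← abs_neg]; congr 1; ring⟩

lemma shift_iso {c : ℝ → X} (hc : Isometry c) (o : ℝ) : Isometry (fun t => c (t + o)) := by
  refine Isometry.of_dist_eq fun s t => ?_
  rw [hc.dist_eq, Real.dist_eq, Real.dist_eq]
  congr 1; ring

/-- parallel lines have constant distance along the parameter -/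
lemma par_const (hX : CN X) {a b : ℝ → X} (ha : Isometry a) (hb : Isometry b) (h : Par a b)
    (t : ℝ) : dist (a t) (b t) = dist (a 0) (b 0) := by
  obtain ⟨o, ho⟩ := t_strip X hX a b ha hb h
  have h1 := ho t (t - o)
  have h2 := ho 0 (0 - o)
  simp only [sub_add_cancel] at h1 h2
  have h3 : dist (a t) (b t) ^ 2 = dist (a 0) (b 0) ^ 2 := by rw [h1, h2]; ring
  exact (pow_left_inj₀ dist_nonneg dist_nonneg two_ne_zero).1 h3

/-- the set of the points on lines parallel to `c` -/
def PS (c : ℝ → X) : Set X := {x | ∃ c' : ℝ → X, Isometry c' ∧ Par c c' ∧ c' 0 = x}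

lemma PS_mem {c c' : ℝ → X} (h1 : Isometry c') (h2 : Par c c') (t : ℝ) : c' t ∈ PS c :=
  ⟨fun s => c' (s + t), shift_iso h1 t, par_trans h2 (par_shift h1 t), by simp⟩

/-- midpoints of points of the parallel set -/
lemma PS_mid (hX : CN X) {c : ℝ → X} {x y m : X} (hx : x ∈ PS c) (hy : y ∈ PS c)
    (hm : ∀ z, dist z m ^ 2 ≤ (dist z x ^ 2 + dist z y ^ 2) / 2 - dist x y ^ 2 / 4) :
    m ∈ PS c := by
  obtain ⟨a, ha, hca, hax⟩ := hx
  obtain ⟨b, hb, hcb, hby⟩ := hy
  have hab : Par a b := par_trans (par_symm hca) hcb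
  obtain ⟨o, ho⟩ := t_strip X hX a b ha hb hab
  obtain ⟨p, hp, hap, hpm⟩ := t_mid t_strip X hX a (fun t => b (t + o)) ha (shift_iso hb o) ho
  -- `p (-o / 2)` is the midpoint of `a 0` and `b 0`
  have hbp : Sy (fun t => b (t + o)) p :=
    t_trans t_strip X hX a _ p ha (shift_iso hb o) hp ho hap
  have e0 := hpm (a 0)
  have e1 := hpm (b (0 + o))
  rw [dist_self] at e0 e1
  have d1 : dist x (p (-o / 2)) ^ 2 = dist (a 0) (p 0) ^ 2 + (o / 2) ^ 2 := by
    rw [← hax, hap 0 (-o / 2)]; ring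
  have d2 : dist y (p (-o / 2)) ^ 2 = dist (b (0 + o)) (p 0) ^ 2 + (o / 2) ^ 2 := by
    have := hbp (-o) (-o / 2)
    simp only [neg_add_cancel] at this
    rw [← hby, this]; ring
  have d3 : dist x y ^ 2 = dist (a 0) (b (0 + o)) ^ 2 + o ^ 2 := by
    have := ho 0 (-o)
    simp only [neg_add_cancel] at this
    rw [← hax, ← hby, this]; ring
  have h1 := hm (p (-o / 2))
  rw [dist_comm _ x, dist_comm _ y, d1, d2, d3] at h1
  rw [dist_comm (b (0 + o)) (a 0)] at e1
  have h2 : dist (p (-o / 2)) m ^ 2 ≤ 0 := by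
    nlinarith
  have h3 : p (-o / 2) = m :=
    dist_eq_zero.1 (pow_eq_zero_iff two_ne_zero |>.1 (le_antisymm h2 (sq_nonneg _)))
  have hpar : Par a p := by
    refine ⟨dist (a 0) (p 0), fun t => ?_⟩
    have := hap t t
    rw [sub_self] at this
    exact le_of_sq' dist_nonneg (by rw [this]; linarith)
  rw [← h3]
  exact PS_mem hp (par_trans hca hpar) _

lemma PS_closed (hX : CN X) [ProperSpace X] {c : ℝ → X} (hc : Isometry c) : IsClosed (PS c) := by
  refine isClosed_of_closure_subset fun x hx => ?_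
  obtain ⟨u, hu, hux⟩ := mem_closure_iff_seq_limit.1 hx
  choose a ha hca hau using hu
  have hd : ∀ n m t, dist (a n t) (a m t) = dist (u n) (u m) := by
    intro n m t
    rw [par_const hX (ha n) (ha m) (par_trans (par_symm (hca n)) (hca m)) t, hau, hau]
  have hcau : ∀ t, CauchySeq (fun n => a n t) := by
    intro t
    have h1 := hux.cauchySeq
    rw [Metric.cauchySeq_iff] at h1 ⊢
    intro ε hε
    obtain ⟨N, hN⟩ := h1 ε hε
    exact ⟨N, fun m hm n hn => by rw [hd]; exact hN m hm n hn⟩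
  choose l hl using fun t => cauchySeq_tendsto_of_complete (hcau t)
  have hli : Isometry l := by
    refine Isometry.of_dist_eq fun s t => ?_
    have h1 := (hl s).dist (hl t)
    have h2 : (fun n => dist (a n s) (a n t)) = fun _ => dist s t :=
      funext fun n => (ha n).dist_eq s t
    rw [h2] at h1
    exact (tendsto_nhds_unique tendsto_const_nhds h1).symm
  have hpar : Par c l := by
    refine ⟨dist (c 0) x, fun t => ?_⟩
    have h1 : Tendsto (fun n => dist (c t) (a n t)) atTop (𝓝 (dist (c t) (l t))) :=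
      tendsto_const_nhds.dist (hl t)
    have h2 : (fun n => dist (c t) (a n t)) = fun n => dist (c 0) (u n) := by
      funext n
      rw [par_const hX hc (ha n) (hca n) t, hau]
    rw [h2] at h1
    have h3 : Tendsto (fun n => dist (c 0) (u n)) atTop (𝓝 (dist (c 0) x)) :=
      tendsto_const_nhds.dist hux
    exact (tendsto_nhds_unique h1 h3).le
  refine ⟨l, hli, hpar, ?_⟩
  have h1 := hl 0
  have h2 : (fun n => a n 0) = u := funext hau
  rw [h2] at h1
  exact tendsto_nhds_unique h1 hux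

/-- in a geodesically complete space a midpoint convex closed set at bounded distance from all
points is everything -/
lemma eq_univ_of_convex (hX : CN X) (hGC : GC X) {S : Set X} (hne : S.Nonempty)
    (hcl : IsClosed S)
    (hmid : ∀ x ∈ S, ∀ y ∈ S, ∀ m, (∀ z, dist z m ^ 2 ≤
      (dist z x ^ 2 + dist z y ^ 2) / 2 - dist x y ^ 2 / 4) → m ∈ S)
    {D : ℝ} (hD : ∀ x, infDist x S ≤ D) : S = univ := by
  refine eq_univ_of_forall fun x => ?_
  obtain ⟨p, hp⟩ := hne
  by_cases hpx : p = x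
  · rwa [← hpx]
  obtain ⟨σ, hσ, h0, h1⟩ := hGC p x hpx
  have hconv : ∀ s r : ℝ, 2 * infDist (σ s) S ≤ infDist (σ (s + r)) S + infDist (σ (s - r)) S := by
    intro s r
    refine le_of_forall_pos_le_add fun ε hε => ?_
    obtain ⟨a, ha, ha'⟩ := (infDist_lt_iff ⟨p, hp⟩).1
      (show infDist (σ (s + r)) S < infDist (σ (s + r)) S + ε / 2 by linarith)
    obtain ⟨b, hb, hb'⟩ := (infDist_lt_iff ⟨p, hp⟩).1
      (show infDist (σ (s - r)) S < infDist (σ (s - r)) S + ε / 2 by linarith)
    obtain ⟨m, hm⟩ := hX a b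
    have hmS := hmid a ha b hb m hm
    have h2 : dist (σ s) m ≤ (dist (σ (s + r)) a + dist (σ (s - r)) b) / 2 := by
      obtain ⟨q, hq⟩ := hX (σ (s + r)) b
      have hσm : ∀ z, dist z (σ s) ^ 2 ≤ (dist z (σ (s + r)) ^ 2 + dist z (σ (s - r)) ^ 2) / 2 -
          dist (σ (s + r)) (σ (s - r)) ^ 2 / 4 := by
        intro z
        have := line_cn hX hσ z s r
        rw [hσ.dist_eq, Real.dist_eq, sq_abs]
        have e : (s + r - (s - r)) ^ 2 / 4 = r ^ 2 := by ring
        rw [e]; linarith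
      have h3 : dist (σ s) q ≤ dist (σ (s - r)) b / 2 := half_side hσm hq
      have h4 : dist m q ≤ dist a (σ (s + r)) / 2 := by
        refine half_side (a := b) (b := a) (fun z => ?_) (fun z => ?_)
        · have := hm z
          rw [dist_comm b a]; linarith
        · have := hq z
          rw [dist_comm b]; linarith
      have h5 := dist_triangle_right (σ s) m q
      rw [dist_comm a] at h4
      linarith
    have h3 := infDist_le_dist_of_mem (x := σ s) hmS
    linarith
  have hconst := const_of_bdd (fun t => infDist (σ t) S) D (fun t => hD _) hconv 0 (dist p x)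
  simp only [zero_add] at hconst
  rw [h0, h1, infDist_zero_of_mem hp] at hconst
  have h2 := (mem_closure_iff_infDist_zero ⟨p, hp⟩).2 hconst
  rwa [hcl.closure_eq] at h2

/-! ### the product -/

/-- `X` is isometric to the product of a metric space with more than one point and the line -/
def SplitsLine (X : Type) [MetricSpace X] : Prop :=
  ∃ (Y : Type) (_ : MetricSpace Y) (_ : Nontrivial Y) (e : X ≃ Y × ℝ), ∀ x x' : X,
    dist x x' ^ 2 = dist (e x).1 (e x').1 ^ 2 + dist (e x).2 (e x').2 ^ 2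

/-- the lines synchronised with `c` -/
def YY (c : ℝ → X) : Type := {c' : ℝ → X // Isometry c' ∧ Sy c c'}

/-- the distance of synchronised lines -/
@[reducible] def YYm (hX : CN X) {c : ℝ → X} (hc : Isometry c) : MetricSpace (YY c) where
  dist a b := dist (a.1 0) (b.1 0)
  dist_self a := dist_self _
  dist_comm a b := dist_comm _ _
  dist_triangle a b d := dist_triangle _ _ _
  eq_of_dist_eq_zero := by
    intro a b h
    have h1 : Sy a.1 b.1 := t_trans t_strip X hX c a.1 b.1 hc a.2.1 b.2.1 a.2.2 b.2.2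
    apply Subtype.ext
    funext t
    have h2 := h1 t t
    have h3 : dist (a.1 0) (b.1 0) = 0 := h
    rw [h3] at h2
    have h4 : dist (a.1 t) (b.1 t) ^ 2 = 0 := by rw [h2]; ring
    exact dist_eq_zero.1 (pow_eq_zero_iff two_ne_zero |>.1 h4)

theorem splits_or (hX : CN X) {c : ℝ → X} (hc : Isometry c) (huniv : PS c = univ) :
    SplitsLine X ∨ ∀ x, ∃ t, c t = x := by
  let _ := YYm hX hc
  have hsy : ∀ a b : YY c, Sy a.1 b.1 := fun a b =>
    t_trans t_strip X hX c a.1 b.1 hc a.2.1 b.2.1 a.2.2 b.2.2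
  let F : YY c × ℝ → X := fun p => p.1.1 p.2
  have hF : ∀ p p' : YY c × ℝ, dist (F p) (F p') ^ 2 = dist p.1 p'.1 ^ 2 + dist p.2 p'.2 ^ 2 := by
    intro p p'
    have h1 := hsy p.1 p'.1 p.2 p'.2
    have h2 : dist p.1 p'.1 = dist (p.1.1 0) (p'.1.1 0) := rfl
    show dist (p.1.1 p.2) (p'.1.1 p'.2) ^ 2 = _
    rw [h1, h2, Real.dist_eq, sq_abs]
    ring
  have hinj : Function.Injective F := by
    intro p p' h
    have h1 := hF p p'
    rw [h, dist_self] at h1
    have h2 := sq_nonneg (dist p.1 p'.1)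
    have h3 := sq_nonneg (dist p.2 p'.2)
    have h4 : dist p.1 p'.1 ^ 2 = 0 := by nlinarith
    have h5 : dist p.2 p'.2 ^ 2 = 0 := by nlinarith
    exact Prod.ext (dist_eq_zero.1 (pow_eq_zero_iff two_ne_zero |>.1 h4))
      (dist_eq_zero.1 (pow_eq_zero_iff two_ne_zero |>.1 h5))
  have hsurj : ∀ x : X, ∃ (a : YY c) (t : ℝ), a.1 t = x := by
    intro x
    have hx : x ∈ PS c := by rw [huniv]; trivial
    obtain ⟨a, ha, hca, hax⟩ := hx
    obtain ⟨o, ho⟩ := t_strip X hX c a hc ha hca
    exact ⟨⟨fun t => a (t + o), shift_iso ha o, ho⟩, -o, by simp [hax]⟩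
  have hbij : Function.Bijective F := ⟨hinj, fun x => by
    obtain ⟨a, t, h⟩ := hsurj x
    exact ⟨(a, t), h⟩⟩
  have hcc : Sy c c := by
    intro s t
    rw [dist_self, hc.dist_eq, Real.dist_eq, sq_abs]; ring
  rcases subsingleton_or_nontrivial (YY c) with hs | hn
  · right
    intro x
    obtain ⟨a, t, h⟩ := hsurj x
    have : a = ⟨c, hc, hcc⟩ := Subsingleton.elim _ _
    rw [this] at h
    exact ⟨t, h⟩
  · left
    refine ⟨YY c, inferInstance, hn, (Equiv.ofBijective F hbij).symm, fun x x' => ?_⟩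
    have h1 := hF ((Equiv.ofBijective F hbij).symm x) ((Equiv.ofBijective F hbij).symm x')
    have e : ∀ z, F ((Equiv.ofBijective F hbij).symm z) = z := fun z =>
      (Equiv.ofBijective F hbij).apply_symm_apply z
    rw [e, e] at h1
    exact h1

/-- a line does not bound a half-plane in itself -/
lemma HP_empty_of_line {c : ℝ → X} (hc : Isometry c) (h : ∀ x, ∃ t, c t = x) : HP c = ∅ := by
  rw [eq_empty_iff_forall_notMem]
  rintro H ⟨h1, h2⟩
  obtain ⟨t, ht⟩ := h (H (0, 1))
  have h3 := h1 (0, 1) (t, 0)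
  rw [h2, ← ht, dist_self] at h3
  simp at h3
  nlinarith [sq_nonneg t]

end Pool.Agent.T6.H46.RR
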