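import Pool.Agent.T6.H46.RR.Follow

/-!
# A commensurated subgroup from a segment stabiliser of minimal rank
-/

set_option autoImplicit false

namespace Pool.Agent.T6.H46.RR

open Pool.Agent.T6.H67.TA

variable {G : Type} [Group G]

/-- `K` has a subgroup of finite index which is a finitely generated abelian group of rank `r` -/
def VA (K : Subgroup G) (r : ℕ) : Prop :=
  ∃ (M : Type) (_ : AddCommGroup M) (_ : Module.Finite ℤ M) (φ : Multiplicative M →* G),
    Function.Injective φ ∧ φ.range ≤ K ∧ φ.range.relIndex K ≠ 0 ∧ Module.finrank ℤ M = r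

/-- if the rank does not go down then all elements have powers in the smaller group -/
lemma power_mem {K K' : Subgroup G} {M : Type} [AddCommGroup M] [Module.Finite ℤ M]
    {φ : Multiplicative M →* G} (hφ : Function.Injective φ) (hidx : φ.range.relIndex K ≠ 0)
    (x : G) (hK' : ∀ s ∈ K', x⁻¹ * s * x ∈ K)
    (hmin : ∀ r', VA K' r' → Module.finrank ℤ M ≤ r') (a : G) (ha : a ∈ φ.range) :
    ∃ l : ℕ, 0 < l ∧ x * a ^ l * x⁻¹ ∈ K' := by
  set φx : Multiplicative M →* G := (MulAut.conj x).toMonoidHom.comp φ with hφx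
  have hφxa : ∀ m, φx m = x * φ m * x⁻¹ := fun m => rfl
  have hφxi : Function.Injective φx := (MulAut.conj x).injective.comp hφ
  -- the subgroup of `M`
  let N : AddSubgroup M :=
    { carrier := {m | φx (Multiplicative.ofAdd m) ∈ K'}
      zero_mem' := by
        show φx (Multiplicative.ofAdd 0) ∈ K'
        rw [ofAdd_zero, map_one]; exact K'.one_mem
      add_mem' := by
        intro a b ha hb
        show φx (Multiplicative.ofAdd (a + b)) ∈ K'
        rw [ofAdd_add, map_mul]; exact K'.mul_mem ha hb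
      neg_mem' := by
        intro a ha
        show φx (Multiplicative.ofAdd (-a)) ∈ K'
        rw [ofAdd_neg, map_inv]; exact K'.inv_mem ha }
  let N' : Submodule ℤ M := AddSubgroup.toIntSubmodule N
  have hNmem : ∀ m : M, m ∈ N' ↔ φx (Multiplicative.ofAdd m) ∈ K' := fun m => Iff.rfl
  have hfin : Module.Finite ℤ N' := inferInstance
  let ψ : Multiplicative N' →* G := φx.comp (AddMonoidHom.toMultiplicative N'.subtype.toAddMonoidHom)
  have hψ : ∀ m : N', ψ (Multiplicative.ofAdd m) = φx (Multiplicative.ofAdd (m : M)) := fun m => rfl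
  have hψi : Function.Injective ψ := by
    intro a b h
    have h1 : φx (Multiplicative.ofAdd ((Multiplicative.toAdd a : N') : M)) =
      φx (Multiplicative.ofAdd ((Multiplicative.toAdd b : N') : M)) := h
    have h2 := hφxi h1
    have h3 : ((Multiplicative.toAdd a : N') : M) = ((Multiplicative.toAdd b : N') : M) := h2
    exact Subtype.ext h3
  have hrange : ψ.range = φx.range ⊓ K' := by
    ext g
    constructor
    · rintro ⟨m, rfl⟩
      refine ⟨⟨Multiplicative.ofAdd ((Multiplicative.toAdd m : N') : M), rfl⟩, ?_⟩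
      exact (hNmem _).1 (Multiplicative.toAdd m : N').2
    · rintro ⟨⟨m, rfl⟩, hm⟩
      exact ⟨Multiplicative.ofAdd ⟨Multiplicative.toAdd m, hm⟩, rfl⟩
  have hidx' : ψ.range.relIndex K' ≠ 0 := by
    rw [hrange, Subgroup.inf_relIndex_right]
    -- transport by the conjugation
    have h1 : (φx.range).relIndex (K.map (MulAut.conj x).toMonoidHom) ≠ 0 := by
      have e : φx.range = φ.range.map (MulAut.conj x).toMonoidHom := by
        rw [hφx, MonoidHom.range_comp]
      rw [e, Subgroup.relIndex_map_map_of_injective _ _ (MulAut.conj x).injective]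
      exact hidx
    intro h2
    refine h1 (Subgroup.relIndex_eq_zero_of_le_right ?_ h2)
    intro s hs
    refine ⟨x⁻¹ * s * x, hK' s hs, ?_⟩
    show x * (x⁻¹ * s * x) * x⁻¹ = s
    group
  have hVA : VA K' (Module.finrank ℤ N') := by
    refine ⟨N', inferInstance, hfin, ψ, hψi, ?_, hidx', ?_⟩
    · rw [hrange]; exact inf_le_right
    · congr 1
  have h1 := hmin _ hVA
  have h2 := Submodule.finrank_quotient_add_finrank (R := ℤ) N'
  have h3 : Module.finrank ℤ (M ⧸ N') = 0 := by omega
  rw [Module.finrank_eq_zero_iff] at h3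
  obtain ⟨m, rfl⟩ := ha
  obtain ⟨l, hl0, hl⟩ := h3 (Submodule.Quotient.mk (Multiplicative.toAdd m))
  rw [← Submodule.Quotient.mk_smul, Submodule.Quotient.mk_eq_zero] at hl
  have h4 : φx (Multiplicative.ofAdd (l • Multiplicative.toAdd m)) ∈ K' := hl
  have h5 : φx (Multiplicative.ofAdd (l • Multiplicative.toAdd m)) = φx m ^ l := by
    rw [ofAdd_zsmul, ofAdd_toAdd, map_zpow]
  rw [h5] at h4
  refine ⟨l.natAbs, Int.natAbs_pos.2 hl0, ?_⟩
  have h6 : φx m ^ l.natAbs ∈ K' := by
    rcases Int.natAbs_eq l with h | h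
    · rw [h, zpow_natCast] at h4; exact h4
    · rw [h, zpow_neg, zpow_natCast] at h4
      exact (K'.inv_mem_iff).1 h4
  rw [hφxa] at h6
  rwa [conj_pow] at h6

variable {V : Type} {T : SimpleGraph V} (hT : T.IsTree) [MulAction G V]
  (hact : ∀ (g : G) (u v : V), T.Adj u v → T.Adj (g • u) (g • v))

/-- the stabiliser of the segment with end points `a`, `b` -/
def Pair (G : Type) [Group G] {V : Type} [MulAction G V] (a b : V) : Subgroup G :=
  MulAction.stabilizer G a ⊓ MulAction.stabilizer G b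

lemma mem_pair {a b : V} {s : G} : s ∈ Pair G a b ↔ s • a = a ∧ s • b = b := Iff.rfl

lemma mem_pair_smul {a b : V} {s x : G} (h : s ∈ Pair G (x • a) (x • b)) :
    x⁻¹ * s * x ∈ Pair G a b := by
  obtain ⟨h1, h2⟩ := mem_pair.1 h
  refine mem_pair.2 ⟨?_, ?_⟩
  · rw [mul_smul, mul_smul, h1, inv_smul_smul]
  · rw [mul_smul, mul_smul, h2, inv_smul_smul]

include hT hact in
/-- a segment stabiliser of minimal rank is commensurated in the weak sense that every conjugate of
every element of `A` has a power in `A` -/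
theorem commensurated {w : V} {f : G} (hf : OnAxis T f w) (n : ℕ) {M : Type} [AddCommGroup M]
    [Module.Finite ℤ M] {φ : Multiplicative M →* G} (hφ : Function.Injective φ)
    (hle : φ.range ≤ Pair G w (f ^ n • w)) (hidx : φ.range.relIndex (Pair G w (f ^ n • w)) ≠ 0)
    (hmin : ∀ (F : G) (w' : V) (n' r' : ℕ), OnAxis T F w' → VA (Pair G w' (F ^ n' • w')) r' →
      Module.finrank ℤ M ≤ r') (g : G) (a : G) (ha : a ∈ φ.range) :
    ∃ l : ℕ, 0 < l ∧ g * a ^ l * g⁻¹ ∈ φ.range := by
  set A := φ.range with hA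
  set K := Pair G w (f ^ n • w) with hK
  -- elements of `K` have powers in `A`
  have hKA : ∀ s ∈ K, ∃ l : ℕ, 0 < l ∧ s ^ l ∈ A := by
    intro s hs
    obtain ⟨l, h1, -, h2⟩ := Subgroup.exists_pow_mem_of_relIndex_ne_zero hidx hs
    exact ⟨l, h1, h2.1⟩
  let Com : G → Prop := fun g => ∀ a ∈ A, ∃ l : ℕ, 0 < l ∧ g * a ^ l * g⁻¹ ∈ A
  have hmul : ∀ g h, Com g → Com h → Com (g * h) := by
    intro g h hg hh a ha
    obtain ⟨l, h1, h2⟩ := hh a ha
    obtain ⟨l', h3, h4⟩ := hg _ h2
    refine ⟨l * l', Nat.mul_pos h1 h3, ?_⟩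
    rw [conj_pow, ← pow_mul] at h4
    rw [mul_inv_rev]
    have e : g * h * a ^ (l * l') * (h⁻¹ * g⁻¹) = g * (h * a ^ (l * l') * h⁻¹) * g⁻¹ := by group
    rw [e]
    exact h4
  -- powers of `f`
  have hcomf : ∀ j : ℕ, Com (f ^ j) ∧ Com (f ^ j)⁻¹ := by
    intro j
    have hOn : OnAxis T f ((f ^ j)⁻¹ • w) := by
      have := on_smul hT hact hf (f ^ j)⁻¹
      have e : (f ^ j)⁻¹ * f * (f ^ j)⁻¹⁻¹ = f := by
        rw [inv_inv, mul_assoc, ← pow_succ', pow_succ, inv_mul_cancel_left]
      rwa [e] at this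
    set w1 := (f ^ j)⁻¹ • w with hw1
    -- the long segment
    set K' := Pair G w1 (f ^ (j + n + j) • w1) with hK'
    have hbet : ∀ i : ℕ, i ≤ j + n + j → ∀ s ∈ K', s • f ^ i • w1 = f ^ i • w1 := by
      intro i hi s hs
      obtain ⟨h1, h2⟩ := mem_pair.1 hs
      refine fix_between hT hact (a := w1) (b := f ^ (j + n + j) • w1) ?_ h1 h2
      unfold P
      rw [D_comm _ w1, D_pow hT hact hOn, D_pow hT hact hOn, D_pow_pow hT hact hOn hi]
      ring
    have e0 : ∀ i : ℕ, f ^ (j + i) • w1 = f ^ i • w := by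
      intro i
      rw [hw1, smul_smul, add_comm, pow_add, mul_inv_cancel_right]
    constructor
    · -- `f ^ j`: `a ^ l` fixes the segment from `w1`
      intro a ha
      obtain ⟨l, hl, hl'⟩ := power_mem hφ hidx 1 (K' := K') (fun s hs => by
        rw [inv_one, one_mul, mul_one]
        refine mem_pair.2 ⟨?_, ?_⟩
        · have := hbet j (by omega) s hs
          have e := e0 0
          rw [add_zero, pow_zero, one_smul] at e
          rwa [e] at this
        · have := hbet (j + n) (by omega) s hs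
          rwa [e0] at this) (fun r' h => hmin f w1 (j + n + j) r' hOn h) a ha
      rw [one_mul, inv_one, mul_one] at hl'
      have h1 : f ^ j * a ^ l * (f ^ j)⁻¹ ∈ K := by
        refine mem_pair.2 ⟨?_, ?_⟩
        · have h2 := hbet 0 (by omega) _ hl'
          rw [pow_zero, one_smul] at h2
          rw [mul_smul, mul_smul, ← hw1, h2, hw1, smul_inv_smul]
        · have h2 := hbet n (by omega) _ hl'
          have e1 : (f ^ j)⁻¹ • f ^ n • w = f ^ n • w1 := by
            rw [hw1, smul_smul, smul_smul]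
            congr 1
            rw [inv_mul_eq_iff_eq_mul, ← mul_assoc, ← pow_add, add_comm, pow_add,
              mul_inv_cancel_right]
          rw [mul_smul, mul_smul, e1, h2, ← e1, smul_inv_smul]
      obtain ⟨l', h2, h3⟩ := hKA _ h1
      refine ⟨l * l', Nat.mul_pos hl h2, ?_⟩
      rwa [conj_pow, ← pow_mul] at h3
    · intro a ha
      obtain ⟨l, hl, hl'⟩ := power_mem hφ hidx 1 (K' := K') (fun s hs => by
        rw [inv_one, one_mul, mul_one]
        refine mem_pair.2 ⟨?_, ?_⟩
        · have := hbet j (by omega) s hs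
          have e := e0 0
          rw [add_zero, pow_zero, one_smul] at e
          rwa [e] at this
        · have := hbet (j + n) (by omega) s hs
          rwa [e0] at this) (fun r' h => hmin f w1 (j + n + j) r' hOn h) a ha
      rw [one_mul, inv_one, mul_one] at hl'
      have h1 : (f ^ j)⁻¹ * a ^ l * (f ^ j)⁻¹⁻¹ ∈ K := by
        rw [inv_inv]
        refine mem_pair.2 ⟨?_, ?_⟩
        · have h2 := hbet (j + j) (by omega) _ hl'
          rw [e0] at h2
          rw [mul_smul, mul_smul, h2, inv_smul_smul]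
        · have h2 := hbet (j + (n + j)) (by omega) _ hl'
          rw [e0] at h2
          have e1 : f ^ j • f ^ n • w = f ^ (n + j) • w := by
            rw [smul_smul, ← pow_add, add_comm]
          rw [mul_smul, mul_smul, e1, h2, ← e1, inv_smul_smul]
      obtain ⟨l', h2, h3⟩ := hKA _ h1
      refine ⟨l * l', Nat.mul_pos hl h2, ?_⟩
      rwa [conj_pow, ← pow_mul] at h3
  have hcomz : ∀ e : ℤ, Com (f ^ e) := by
    intro e
    rcases Int.natAbs_eq e with h | h
    · rw [h, zpow_natCast]; exact (hcomf _).1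
    · rw [h, zpow_neg, zpow_natCast]; exact (hcomf _).2
  -- the main step
  have hmain : ∀ g : G, Com g⁻¹ := by
    intro g
    obtain ⟨F, w', m, y, hnm, hF, ⟨e, hy⟩, hfix⟩ := follow hT hact hf g n
    set K' := Pair G w' (F ^ 1 • w') with hK'
    have hfix' : ∀ s ∈ K', (s • f ^ m • w = f ^ m • w ∧ s • f ^ m • f ^ m • w = f ^ m • f ^ m • w) ∧
        (s • y • w = y • w ∧ s • y • f ^ m • w = y • f ^ m • w) := by
      intro s hs
      obtain ⟨h1, h2⟩ := mem_pair.1 hs
      rw [pow_one] at h2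
      exact hfix s h1 h2
    -- fixing a translate of a long segment means fixing a translate of the short one
    have hshort : ∀ (x s : G), s • x • w = x • w → s • x • f ^ m • w = x • f ^ m • w →
        x⁻¹ * s * x ∈ K := by
      intro x s h1 h2
      have h3 : x⁻¹ * s * x ∈ Pair G w (f ^ m • w) := mem_pair_smul (mem_pair.2 ⟨h1, h2⟩)
      obtain ⟨h4, h5⟩ := mem_pair.1 h3
      refine mem_pair.2 ⟨h4, fix_between hT hact (a := w) (b := f ^ m • w) ?_ h4 h5⟩
      unfold P
      rw [D_comm _ w, D_pow hT hact hf, D_pow hT hact hf, D_pow_pow hT hact hf hnm]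
      ring
    have hz : Com (g⁻¹ * (f ^ (3 * m))⁻¹ * f ^ m) := by
     intro a ha
     obtain ⟨l, hl, hl'⟩ := power_mem hφ hidx (f ^ m) (K' := K')
       (fun s hs => hshort _ s (hfix' s hs).1.1 (hfix' s hs).1.2)
       (fun r' h => hmin F w' 1 r' hF h) a ha
     have h1 := hshort y _ (hfix' _ hl').2.1 (hfix' _ hl').2.2
     obtain ⟨l', h2, h3⟩ := hKA _ h1
     -- `z = y⁻¹ f ^ m` has the property
     have h4 : (y⁻¹ * f ^ m) * a ^ (l * l') * (y⁻¹ * f ^ m)⁻¹ ∈ A := by
       have e1 : y⁻¹ * (f ^ m * a ^ l * (f ^ m)⁻¹) * y =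
           (y⁻¹ * f ^ m) * a ^ l * (y⁻¹ * f ^ m)⁻¹ := by group
       rw [e1, conj_pow, ← pow_mul] at h3
       exact h3
     -- multiply by powers of `f`
     obtain ⟨l2, h5, h6⟩ := hcomz e _ h4
     rw [conj_pow, ← pow_mul] at h6
     have h7 : g⁻¹ * (f ^ (3 * m))⁻¹ * f ^ m = f ^ e * (y⁻¹ * f ^ m) := by
       rw [hy]; group
     have h8 : (g⁻¹ * (f ^ (3 * m))⁻¹ * f ^ m) * a ^ (l * l' * l2) *
         (g⁻¹ * (f ^ (3 * m))⁻¹ * f ^ m)⁻¹ ∈ A := by
       rw [h7]
       have e2 : f ^ e * (y⁻¹ * f ^ m) * a ^ (l * l' * l2) * (f ^ e * (y⁻¹ * f ^ m))⁻¹ =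
           f ^ e * (y⁻¹ * f ^ m * a ^ (l * l' * l2) * (y⁻¹ * f ^ m)⁻¹) * (f ^ e)⁻¹ := by group
       rw [e2]
       exact h6
     exact ⟨l * l' * l2, Nat.mul_pos (Nat.mul_pos hl h2) h5, h8⟩
    have h9 := hmul _ _ hz (hcomz (2 * m : ℕ))
    have e3 : g⁻¹ * (f ^ (3 * m))⁻¹ * f ^ m * f ^ ((2 * m : ℕ) : ℤ) = g⁻¹ := by
      rw [zpow_natCast, mul_assoc, ← pow_add, mul_assoc]
      have : m + 2 * m = 3 * m := by ring
      rw [this, inv_mul_cancel, mul_one]
    rw [e3] at h9
    exact h9
  have := hmain g⁻¹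
  rw [inv_inv] at this
  exact this a ha

end Pool.Agent.T6.H46.RR
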