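import Pool.Agent.T6.H46.RR.Comm
import Pool.Agent.T6.H46.RR.Fin
import Pool.Agent.T6.H46.RR.Split

/-!
# Rank rigidity for groups acting on trees with a virtually abelian segment stabiliser
-/

set_option autoImplicit false

open Metric Set Filter Topology
open Pool.Agent.TH60.FP Pool.Agent.Y34.HB Pool.Agent.Y34.EL
open Pool.Agent.T6.H67.TA

namespace Pool.Agent.T6.H46.RR

variable {X : Type} [MetricSpace X] {G : Type} [Group G] [MulAction G X]

/-- a commensurated finitely generated infinite abelian subgroup splits off a line -/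
theorem split_of_commensurated (hG : Geo X G) (hGC : GC X) (o : X) (A : Subgroup G) (hfg : A.FG)
    (hcomm : ∀ a ∈ A, ∀ b ∈ A, a * b = b * a)
    (hcom : ∀ g : G, ∀ a ∈ A, ∃ l : ℕ, 0 < l ∧ g * a ^ l * g⁻¹ ∈ A) {a : G} (ha : a ∈ A)
    (hinf : ¬ IsOfFinOrder a) : (∃ g : G, RankOne X g) ∨ SplitsLine X := by
  have := hG.proper
  have := hG.isom
  obtain ⟨y, hy⟩ := exists_torus_point hG A hfg hcomm o
  have hpos : ∀ b ∈ A, ¬ IsOfFinOrder b → 0 < dist y (b • y) := by
    intro b hb hbi
    rw [dist_pos]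
    intro h
    have h1 : ∀ n : ℕ, b ^ n • y = y := by
      intro n
      induction n with
      | zero => simp
      | succ n ih => rw [pow_succ, mul_smul, ← h, ih]
    have h2 : Function.Injective (fun n : ℕ => b ^ n) := injective_pow_iff_not_isOfFinOrder.2 hbi
    have h3 := Set.infinite_range_of_injective h2
    refine h3 ((finite_short hG y 0).subset ?_)
    rintro _ ⟨n, rfl⟩
    show dist y (b ^ n • y) ≤ 0
    rw [h1, dist_self]
  obtain ⟨c, hc, hc0⟩ := axis_through hG.cn (hy a ha) (hpos a ha hinf)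
  set δ := dist y (a • y) with hδ
  have hδ0 : 0 < δ := hpos a ha hinf
  -- the orbit of `y` is in the parallel set
  have horb : ∀ g : G, g • y ∈ PS c := by
    intro g
    obtain ⟨l, hl, hl'⟩ := hcom g⁻¹ a ha
    rw [inv_inv] at hl'
    have hal : a ^ l ∈ A := A.pow_mem ha l
    have hmin := (hy _ hl').smul g
    have e : g * (g⁻¹ * a ^ l * g) * g⁻¹ = a ^ l := by group
    rw [e] at hmin
    have hmin' := hy _ hal
    have heq : dist (g • y) (a ^ l • g • y) = l * δ := by
      have h1 := hmin y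
      have h2 := hmin' (g • y)
      have h3 : dist y (a ^ l • y) = l * δ := growth_of_isMin hG.cn (hy a ha) l
      linarith
    have hlpos : 0 < l * δ := mul_pos (by exact_mod_cast hl) hδ0
    obtain ⟨c', hc', hc'0⟩ := axis_through hG.cn hmin (by rw [heq]; exact hlpos)
    rw [heq] at hc'
    have hcl : Axis (a ^ l) (l * δ) c :=
      ⟨hc.1, fun t => Pool.Agent.R632.CZ.Axis.nat hc l t⟩
    exact ⟨c', hc'.1, Pool.Agent.R632.CZ.Axis.par hlpos hcl hc', hc'0⟩
  -- so it is everything
  obtain ⟨K, hK, hcov⟩ := hG.cc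
  obtain ⟨D, hD⟩ := hK.isBounded.subset_closedBall y
  have huniv : PS c = univ := by
    refine eq_univ_of_convex hG.cn hGC ⟨_, horb 1⟩ (PS_closed hG.cn hc.1)
      (fun x hx y hy m hm => PS_mid hG.cn hx hy hm) (D := D) fun x => ?_
    obtain ⟨g, hg⟩ := hcov x
    refine (infDist_le_dist_of_mem (horb g⁻¹)).trans ?_
    rw [← dist_smul g, smul_inv_smul]
    exact mem_closedBall.1 (hD hg)
  rcases splits_or hG.cn hc.1 huniv with h | h
  · exact Or.inr h
  · exact Or.inl ⟨a, δ, c, hδ0, hc, HP_empty_of_line hc.1 h⟩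

variable {V : Type} {T : SimpleGraph V} (hT : T.IsTree) [MulAction G V]
  (hact : ∀ (g : G) (u v : V), T.Adj u v → T.Adj (g • u) (g • v))

include hT hact in
theorem main_pair (hG : Geo X G) (hGC : GC X) (o : X) {w : V} {f : G} (hf : OnAxis T f w) (n : ℕ)
    {r : ℕ} (hVA : VA (Pair G w (f ^ n • w)) r) : (∃ g : G, RankOne X g) ∨ SplitsLine X := by
  classical
  by_cases hno : ∃ g : G, RankOne X g
  · exact Or.inl hno
  let Q : ℕ → Prop := fun r => ∃ (F : G) (w' : V) (n' : ℕ), OnAxis T F w' ∧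
    VA (Pair G w' (F ^ n' • w')) r
  have hQ : ∃ r, Q r := ⟨r, f, w, n, hf, hVA⟩
  obtain ⟨F, w', n', hF, M, hM1, hM2, φ, hφ, hle, hidx, hr⟩ := Nat.find_spec hQ
  have hmin : ∀ (F : G) (w' : V) (n' r' : ℕ), OnAxis T F w' → VA (Pair G w' (F ^ n' • w')) r' →
      Module.finrank ℤ M ≤ r' := by
    intro F' w'' n'' r' h1 h2
    have h3 := Nat.find_min' hQ (m := r') ⟨F', w'', n'', h1, h2⟩
    rw [← hr] at h3
    exact h3
  have hinf : ¬ (Finite φ.range) := by
    intro hfin
    apply hno
    have h1 : Finite (Pair G w' (F ^ n' • w')) := by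
      have hc := Subgroup.card_mul_index (φ.range.subgroupOf (Pair G w' (F ^ n' • w')))
      have h2 : Finite (φ.range.subgroupOf (Pair G w' (F ^ n' • w'))) :=
        Finite.of_injective (fun s => (⟨((s : Pair G w' (F ^ n' • w')) : G),
          Subgroup.mem_subgroupOf.1 s.2⟩ : φ.range)) (by
          intro s t h
          have := congrArg Subtype.val h
          exact Subtype.ext (Subtype.ext this))
      have h3 : Nat.card (φ.range.subgroupOf (Pair G w' (F ^ n' • w'))) ≠ 0 := Nat.card_pos.ne'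
      refine Nat.finite_of_card_ne_zero ?_
      rw [← hc]
      exact Nat.mul_ne_zero h3 hidx
    refine ⟨F, rank_one_of_finite hT hact hG o hF n' ?_⟩
    exact Set.toFinite ((Pair G w' (F ^ n' • w') : Subgroup G) : Set G)
  obtain ⟨a, ha, hai⟩ : ∃ a ∈ φ.range, ¬ IsOfFinOrder a := by
    by_contra hcon
    push Not at hcon
    apply hinf
    have htor : Module.IsTorsion ℤ M := by
      intro m
      obtain ⟨k, hk, hk'⟩ := isOfFinOrder_iff_pow_eq_one.1
        (hcon (φ (Multiplicative.ofAdd m)) ⟨_, rfl⟩)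
      rw [← map_pow, ← ofAdd_nsmul] at hk'
      have h1 : k • m = 0 := by
        have h2 : φ (Multiplicative.ofAdd (k • m)) = φ 1 := by rw [hk', map_one]
        exact hφ h2
      refine ⟨⟨(k : ℤ), mem_nonZeroDivisors_of_ne_zero (by exact_mod_cast hk.ne')⟩, ?_⟩
      show ((k : ℤ) • m) = 0
      rw [natCast_zsmul, h1]
    have hM : Finite M := Module.finite_of_fg_torsion M htor
    have : Finite (Multiplicative M) := hM
    exact Finite.of_surjective φ.rangeRestrict φ.rangeRestrict_surjective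
  have hfg : φ.range.FG := by
    have h1 : AddGroup.FG M := Module.Finite.iff_addGroup_fg.1 hM2
    have h2 : Group.FG (Multiplicative M) := inferInstance
    exact (Group.fg_iff_subgroup_fg _).1 (Group.fg_range φ)
  refine split_of_commensurated hG hGC o φ.range hfg ?_ ?_ ha hai
  · rintro _ ⟨a, rfl⟩ _ ⟨b, rfl⟩
    rw [← map_mul, ← map_mul, mul_comm]
  · intro g a ha
    exact commensurated hT hact hF n' hφ hle hidx hmin g a ha

end Pool.Agent.T6.H46.RR
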