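import Pool.Agent.T6.H46.RR.Tree

/-!
# An axis which follows a given axis and a translate of another one
-/

set_option autoImplicit false

namespace Pool.Agent.T6.H46.RR

open Pool.Agent.T6.H67.TA

variable {V : Type} {T : SimpleGraph V} (hT : T.IsTree)
  {K : Type} [Group K] [MulAction K V]
  (hact : ∀ (g : K) (u v : V), T.Adj u v → T.Adj (g • u) (g • v))

/-- the points of the loop -/
def Q (f k : K) (w u : V) (m : ℕ) : ℕ → V
  | 0 => f ^ m • w
  | 1 => f ^ (2 * m) • w
  | 2 => f ^ (3 * m) • w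
  | 3 => f ^ (3 * m) • k ^ m • u
  | 4 => f ^ (3 * m) • k ^ (2 * m) • u
  | 5 => (f ^ (3 * m) * k ^ (3 * m)) • w
  | 6 => (f ^ (3 * m) * k ^ (3 * m)) • f ^ m • w
  | _ => (f ^ (3 * m) * k ^ (3 * m)) • f ^ (2 * m) • w

/-- the points of the axis -/
def xx (f k : K) (w u : V) (m : ℕ) (n : ℕ) : V :=
  (f ^ (3 * m) * k ^ (3 * m)) ^ (n / 6) • Q f k w u m (n % 6)

lemma xx_eq (f k : K) (w u : V) (m q r : ℕ) (hr : r < 8) :
    xx f k w u m (6 * q + r) = (f ^ (3 * m) * k ^ (3 * m)) ^ q • Q f k w u m r := by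
  unfold xx
  by_cases h : r < 6
  · have e1 : (6 * q + r) / 6 = q := by omega
    have e2 : (6 * q + r) % 6 = r := by omega
    rw [e1, e2]
  · have e1 : (6 * q + r) / 6 = q + 1 := by omega
    have e2 : (6 * q + r) % 6 = r - 6 := by omega
    rw [e1, e2]
    obtain rfl | rfl : r = 6 ∨ r = 7 := by omega
    · rw [pow_succ, mul_smul]; rfl
    · rw [pow_succ, mul_smul]; rfl

include hT hact in
theorem exists_follow {f k : K} {w u : V} (hf : OnAxis T f w) (hk : OnAxis T k u) {B : ℤ}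
    (hB : 0 ≤ B) (hcor : Cor T f k w u B) (m : ℕ) (hm : B + 2 * D T w u < m) :
    OnAxis T (f ^ (3 * m) * k ^ (3 * m)) (f ^ m • w) ∧
    P T (f ^ (2 * m) • w) (f ^ m • w) ((f ^ (3 * m) * k ^ (3 * m)) • f ^ m • w) = 0 ∧
    P T (f ^ (3 * m) • k ^ m • u) (f ^ m • w) ((f ^ (3 * m) * k ^ (3 * m)) • f ^ m • w) = 0 ∧
    P T (f ^ (3 * m) • k ^ (2 * m) • u) (f ^ m • w)
      ((f ^ (3 * m) * k ^ (3 * m)) • f ^ m • w) = 0 := by
  set L := D T w (f • w) with hL
  set L' := D T u (k • u) with hL'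
  set d := D T w u with hd
  have hL1 : 1 ≤ L := hf.1
  have hL1' : 1 ≤ L' := hk.1
  have hd0 : 0 ≤ d := D_nonneg _ _
  have hmL : (m : ℤ) ≤ m * L := le_mul_of_one_le_right (by positivity) hL1
  have hmL' : (m : ℤ) ≤ m * L' := le_mul_of_one_le_right (by positivity) hL1'
  have hm0 : 0 < m := by omega
  set F := f ^ (3 * m) * k ^ (3 * m) with hF
  -- distances
  have fd : ∀ i j : ℕ, i ≤ j → D T (f ^ i • w) (f ^ j • w) = ((j : ℤ) - i) * L :=
    fun i j h => D_pow_pow hT hact hf h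
  have kd : ∀ i j : ℕ, i ≤ j → D T (k ^ i • u) (k ^ j • u) = ((j : ℤ) - i) * L' :=
    fun i j h => D_pow_pow hT hact hk h
  have fd0 : ∀ j : ℕ, D T w (f ^ j • w) = j * L := fun j => D_pow hT hact hf j
  have kd0 : ∀ j : ℕ, D T u (k ^ j • u) = j * L' := fun j => D_pow hT hact hk j
  have wk : (m : ℤ) * L' - d ≤ D T w (k ^ m • u) := by
    have := D_tri hT u w (k ^ m • u)
    rw [kd0, D_comm u w] at this
    omega
  have uk : (m : ℤ) * L' - d ≤ D T u (k ^ m • w) := by
    have := D_tri hT u (k ^ m • w) (k ^ m • u)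
    rw [kd0, D_smul hT hact] at this
    omega
  -- products
  have pf : ∀ i j l : ℕ, i ≤ j → j ≤ l → P T (f ^ j • w) (f ^ i • w) (f ^ l • w) = 0 := by
    intro i j l h1 h2
    unfold P
    rw [D_comm, fd i j h1, fd j l h2, fd i l (h1.trans h2)]
    ring
  have pk : ∀ i j l : ℕ, i ≤ j → j ≤ l → P T (k ^ j • u) (k ^ i • u) (k ^ l • u) = 0 := by
    intro i j l h1 h2
    unfold P
    rw [D_comm, kd i j h1, kd j l h2, kd i l (h1.trans h2)]
    ring
  have c3 : P T (k ^ m • u) w (k ^ (2 * m) • u) = 0 := by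
    have h1 := P_min hT (k ^ m • u) u (k ^ (2 * m) • u) w
    have h2 := pk 0 m (2 * m) (by omega) (by omega)
    rw [pow_zero, one_smul] at h2
    rw [h2] at h1
    have h3 : 0 < P T (k ^ m • u) u w := by
      unfold P
      rw [D_comm _ u, kd0, D_comm _ w, D_comm u w]
      omega
    have h4 := P_nonneg hT (k ^ m • u) w (k ^ (2 * m) • u)
    rcases min_le_iff.1 h1 with h | h <;> omega
  have c4 : P T (k ^ (2 * m) • u) (k ^ m • u) (k ^ (3 * m) • w) = 0 := by
    have h1 := P_min hT (k ^ (2 * m) • u) (k ^ m • u) (k ^ (3 * m) • u) (k ^ (3 * m) • w)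
    rw [pk m (2 * m) (3 * m) (by omega) (by omega)] at h1
    have h3 : 0 < P T (k ^ (2 * m) • u) (k ^ (3 * m) • w) (k ^ (3 * m) • u) := by
      unfold P
      rw [kd (2 * m) (3 * m) (by omega), D_smul hT hact]
      have e : k ^ (3 * m) • w = k ^ (2 * m) • k ^ m • w := by
        rw [smul_smul, ← pow_add]; congr 2; ring
      rw [e, D_smul hT hact]
      push_cast
      nlinarith
    have h4 := P_nonneg hT (k ^ (2 * m) • u) (k ^ m • u) (k ^ (3 * m) • w)
    rcases min_le_iff.1 h1 with h | h <;> omega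
  have hP : ∀ r, r < 6 → P T (Q f k w u m (r + 1)) (Q f k w u m r) (Q f k w u m (r + 2)) ≤
      if r = 1 ∨ r = 4 then B else 0 := by
    intro r hr
    interval_cases r
    · show P T (f ^ (2 * m) • w) (f ^ m • w) (f ^ (3 * m) • w) ≤ 0
      rw [pf _ _ _ (by omega) (by omega)]
    · show P T (f ^ (3 * m) • w) (f ^ (2 * m) • w) (f ^ (3 * m) • k ^ m • u) ≤ B
      have e : f ^ (2 * m) • w = f ^ (3 * m) • f⁻¹ ^ m • w := by
        rw [smul_smul]
        congr 1
        have : 3 * m = 2 * m + m := by ring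
        rw [this, pow_add, inv_pow, mul_assoc, mul_inv_cancel, mul_one]
      rw [e, P_smul hT hact, P_comm]
      exact (hcor m m).1
    · show P T (f ^ (3 * m) • k ^ m • u) (f ^ (3 * m) • w) (f ^ (3 * m) • k ^ (2 * m) • u) ≤ 0
      rw [P_smul hT hact, c3]
    · show P T (f ^ (3 * m) • k ^ (2 * m) • u) (f ^ (3 * m) • k ^ m • u) (F • w) ≤ 0
      rw [hF, mul_smul, P_smul hT hact, c4]
    · show P T (F • w) (f ^ (3 * m) • k ^ (2 * m) • u) (F • f ^ m • w) ≤ B
      have e : f ^ (3 * m) • k ^ (2 * m) • u = F • k⁻¹ ^ m • u := by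
        rw [hF, mul_smul, smul_smul (k ^ (3 * m))]
        congr 2
        have : 3 * m = 2 * m + m := by ring
        rw [this, pow_add, inv_pow, mul_assoc, mul_inv_cancel, mul_one]
      rw [e, P_smul hT hact]
      exact (hcor m m).2
    · show P T (F • f ^ m • w) (F • w) (F • f ^ (2 * m) • w) ≤ 0
      have := pf 0 m (2 * m) (by omega) (by omega)
      rw [pow_zero, one_smul] at this
      rw [P_smul hT hact, this]
  have hDD : ∀ r, r < 6 → B < D T (Q f k w u m r) (Q f k w u m (r + 1)) := by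
    intro r hr
    interval_cases r
    · show B < D T (f ^ m • w) (f ^ (2 * m) • w)
      rw [fd _ _ (by omega)]; push_cast; nlinarith
    · show B < D T (f ^ (2 * m) • w) (f ^ (3 * m) • w)
      rw [fd _ _ (by omega)]; push_cast; nlinarith
    · show B < D T (f ^ (3 * m) • w) (f ^ (3 * m) • k ^ m • u)
      rw [D_smul hT hact]; omega
    · show B < D T (f ^ (3 * m) • k ^ m • u) (f ^ (3 * m) • k ^ (2 * m) • u)
      rw [D_smul hT hact, kd _ _ (by omega)]; push_cast; nlinarith
    · show B < D T (f ^ (3 * m) • k ^ (2 * m) • u) (F • w)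
      have e : k ^ (3 * m) • w = k ^ (2 * m) • k ^ m • w := by
        rw [smul_smul, ← pow_add]; congr 2; ring
      rw [hF, mul_smul, D_smul hT hact, e, D_smul hT hact]
      omega
    · show B < D T (F • w) (F • f ^ m • w)
      rw [D_smul hT hact, fd0]; omega
  set x := xx f k w u m with hx
  have hxe : ∀ q r, r < 8 → x (6 * q + r) = F ^ q • Q f k w u m r :=
    fun q r hr => xx_eq f k w u m q r hr
  have hloc : ∀ i, ∃ q r, r < 6 ∧ i = 6 * q + r := fun i => ⟨i / 6, i % 6, by omega, by omega⟩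
  have hp : ∀ i, P T (x (i + 1)) (x i) (x (i + 2)) ≤ B := by
    intro i
    obtain ⟨q, r, hr, rfl⟩ := hloc i
    rw [add_assoc, add_assoc, hxe q r (by omega), hxe q (r + 1) (by omega),
      hxe q (r + 2) (by omega), P_smul hT hact]
    refine (hP r hr).trans ?_
    split_ifs
    · exact le_rfl
    · exact hB
  have hdx : ∀ i, B < D T (x i) (x (i + 1)) := by
    intro i
    obtain ⟨q, r, hr, rfl⟩ := hloc i
    rw [add_assoc, hxe q r (by omega), hxe q (r + 1) (by omega), D_smul hT hact]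
    exact hDD r hr
  have h0 : ∀ j, 1 ≤ j → (j % 6 ≠ 2 ∧ j % 6 ≠ 5) → P T (x j) (x (j - 1)) (x (j + 1)) = 0 := by
    intro j hj hj'
    obtain ⟨q, r, hr, hq⟩ := hloc (j - 1)
    obtain rfl : j = 6 * q + (r + 1) := by omega
    have e1 : 6 * q + (r + 1) - 1 = 6 * q + r := by omega
    rw [e1, add_assoc, hxe q r (by omega), hxe q (r + 1) (by omega), add_assoc,
      hxe q (r + (1 + 1)) (by omega), P_smul hT hact]
    have h1 := hP r hr
    rw [if_neg (by omega)] at h1
    exact le_antisymm h1 (P_nonneg hT _ _ _)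
  have x0 : x 0 = f ^ m • w := by
    have := hxe 0 0 (by omega)
    simpa [Q] using this
  have x6 : x 6 = F • f ^ m • w := by
    have := hxe 0 6 (by omega)
    simpa [Q] using this
  have x1 : x 1 = f ^ (2 * m) • w := by
    have := hxe 0 1 (by omega)
    simpa [Q] using this
  have x3 : x 3 = f ^ (3 * m) • k ^ m • u := by
    have := hxe 0 3 (by omega)
    simpa [Q] using this
  have x4 : x 4 = f ^ (3 * m) • k ^ (2 * m) • u := by
    have := hxe 0 4 (by omega)
    simpa [Q] using this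
  have x12 : x 12 = F • F • f ^ m • w := by
    have := hxe 1 6 (by omega)
    simpa [Q] using this
  have r1 := chain0 hT x B hp hdx 0 1 6 (by omega) (by omega) (h0 1 (by omega) (by omega))
  have r3 := chain0 hT x B hp hdx 0 3 6 (by omega) (by omega) (h0 3 (by omega) (by omega))
  have r4 := chain0 hT x B hp hdx 0 4 6 (by omega) (by omega) (h0 4 (by omega) (by omega))
  have r6 := chain0 hT x B hp hdx 0 6 12 (by omega) (by omega) (h0 6 (by omega) (by omega))
  rw [x0, x1, x6] at r1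
  rw [x0, x3, x6] at r3
  rw [x0, x4, x6] at r4
  rw [x0, x6, x12] at r6
  refine ⟨⟨?_, ?_⟩, r1, r3, r4⟩
  · have h1 := hdx 0
    rw [x0, x1] at h1
    have h2 := D_nonneg (T := T) (f ^ (2 * m) • w) (F • f ^ m • w)
    unfold P at r1
    rw [D_comm] at r1
    omega
  · have h1 := P_smul hT hact F (f ^ m • w) (F • f ^ m • w) (F⁻¹ • f ^ m • w)
    rw [smul_inv_smul] at h1
    rw [← h1, P_comm]
    exact r6

include hT hact in
/-- for every `g` there is an axis which follows the axis of `f` and a translate of the image under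
`g` of the axis of `f` -/
theorem follow {f : K} {w : V} (hf : OnAxis T f w) (g : K) (n : ℕ) :
    ∃ (F : K) (w' : V) (m : ℕ) (y : K), n ≤ m ∧ OnAxis T F w' ∧
      (∃ e : ℤ, y = f ^ (3 * m) * g * f ^ e) ∧
      (∀ s : K, s • w' = w' → s • F • w' = F • w' →
        (s • f ^ m • w = f ^ m • w ∧ s • f ^ m • f ^ m • w = f ^ m • f ^ m • w) ∧
        (s • y • w = y • w ∧ s • y • f ^ m • w = y • f ^ m • w)) := by
  have hk := on_smul hT hact hf g
  set k := g * f * g⁻¹ with hkdef
  set u := g • w with hu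
  set B := 4 * D T w u with hB
  have hd0 : 0 ≤ D T w u := D_nonneg _ _
  have hB0 : 0 ≤ B := by omega
  obtain ⟨m, hm1, hm2⟩ : ∃ m : ℕ, n ≤ m ∧ B + 2 * D T w u < m := by
    refine ⟨n + (B + 2 * D T w u + 1).toNat, by omega, ?_⟩
    have := Int.self_le_toNat (B + 2 * D T w u + 1)
    push_cast
    omega
  have e2m : ∀ (h : K) (z : V), h ^ (2 * m) • z = h ^ m • h ^ m • z := by
    intro h z; rw [two_mul, pow_add, mul_smul]
  rcases exists_cor hT hact hf hk with hc | hc
  · obtain ⟨h1, h2, h3, h4⟩ := exists_follow hT hact hf hk hB0 hc m hm2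
    have e3 : ∀ z : V, f ^ (3 * m) • k ^ m • g • z = (f ^ (3 * m) * g * f ^ (m : ℤ)) • z := by
      intro z
      have : k ^ m • g • z = g • f ^ m • z := by
        rw [hkdef, conj_pow, mul_smul, mul_smul, inv_smul_smul]
      rw [this, zpow_natCast, mul_smul, mul_smul]
    refine ⟨_, _, m, f ^ (3 * m) * g * f ^ (m : ℤ), hm1, h1, ⟨m, rfl⟩, ?_⟩
    intro s hs1 hs2
    refine ⟨⟨hs1, ?_⟩, ?_, ?_⟩
    · have := fix_between hT hact h2 hs1 hs2
      rwa [e2m] at this
    · have := fix_between hT hact h3 hs1 hs2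
      rwa [hu, e3] at this
    · have := fix_between hT hact h4 hs1 hs2
      rw [hu, e2m] at this
      have e4 : k ^ m • g • w = g • f ^ m • w := by
        rw [hkdef, conj_pow, mul_smul, mul_smul, inv_smul_smul]
      rwa [e4, e3] at this
  · obtain ⟨h1, h2, h3, h4⟩ := exists_follow hT hact hf (hk.inv hT hact) hB0 hc m hm2
    -- here the two points are exchanged
    have e4 : ∀ z : V, k⁻¹ ^ m • g • z = g • (f⁻¹) ^ m • z := by
      intro z
      rw [hkdef, mul_inv_rev, mul_inv_rev, inv_inv, ← mul_assoc, conj_pow, mul_smul, mul_smul,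
        inv_smul_smul]
    refine ⟨_, _, m, f ^ (3 * m) * g * f ^ (-(2 * m : ℤ)), hm1, h1, ⟨_, rfl⟩, ?_⟩
    intro s hs1 hs2
    have e5 : ((f ^ (3 * m) * g * f ^ (-(2 * m : ℤ))) : K) • w =
        f ^ (3 * m) • k⁻¹ ^ (2 * m) • u := by
      rw [hu, e2m, e4, e4, mul_smul, mul_smul, smul_smul ((f⁻¹) ^ m), ← pow_add, zpow_neg,
        inv_pow]
      congr 4
      have : (2 * m : ℤ) = ((m + m : ℕ) : ℤ) := by push_cast; ring
      rw [this, zpow_natCast]
    have e6 : ((f ^ (3 * m) * g * f ^ (-(2 * m : ℤ))) : K) • f ^ m • w =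
        f ^ (3 * m) • k⁻¹ ^ m • u := by
      rw [hu, e4, mul_smul, mul_smul, smul_smul (f ^ (-(2 * m : ℤ)))]
      congr 3
      rw [← zpow_natCast, ← zpow_add, ← zpow_natCast, inv_zpow, ← zpow_neg]
      congr 1
      ring
    refine ⟨⟨hs1, ?_⟩, ?_, ?_⟩
    · have := fix_between hT hact h2 hs1 hs2
      rwa [e2m] at this
    · rw [e5]; exact fix_between hT hact h4 hs1 hs2
    · rw [e6]; exact fix_between hT hact h3 hs1 hs2

end Pool.Agent.T6.H46.RR
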